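import Mathlib

/-!
# Real multiple zeta values
-/

namespace Pool.Agent.Work.MP_03df5c_h91

/-- An admissible index `(s 0, …, s r)` of depth `r + 1`: positive integers with `s 0 ≥ 2`. -/
structure MZVIndex where
  r : ℕ
  s : Fin (r + 1) → ℕ
  pos : ∀ i, 1 ≤ s i
  adm : 2 ≤ s 0

/-- The multiple zeta value `ζ(s 0, …, s r) = ∑_{n 0 > n 1 > … > n r ≥ 1} ∏ i, 1 / (n i)^(s i)`. -/
noncomputable def mzv (k : MZVIndex) : ℝ :=
  ∑' n : {n : Fin (k.r + 1) → ℕ // StrictAnti n ∧ ∀ i, 1 ≤ n i},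
    ∏ i, 1 / (n.1 i : ℝ) ^ (k.s i)

end Pool.Agent.Work.MP_03df5c_h91
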