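import Pool.Agent.Work.MP_03df5c_h91.Lowest

open Filter Topology Finset

namespace Pool.Agent.Work.MP_03df5c_h91

lemma summable_zetaR {k : ℕ} (hk : 2 ≤ k) : Summable (fun n : ℕ => 1 / ((n : ℝ) + 1) ^ k) := by
  have h := (Real.summable_one_div_nat_pow (p := k)).2 (by omega)
  have h2 := (summable_nat_add_iff 1).2 h
  simpa using h2

lemma zetaR_pos {k : ℕ} (hk : 2 ≤ k) : 0 < zetaR k := by
  unfold zetaR
  refine (summable_zetaR hk).tsum_pos (fun n => by positivity) 0 (by norm_num)

lemma norm_lt_one_of_dvd_num {p : ℕ} [hp : Fact p.Prime] {q : ℚ} (h : (p : ℤ) ∣ q.num) :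
    ‖(q : ℚ_[p])‖ < 1 := by
  have hden : ‖(q.den : ℚ_[p])‖ = 1 := by
    apply norm_nat_eq_one
    intro hd
    have h1 : p ∣ q.num.natAbs := Int.natCast_dvd.1 h
    have h2 := Nat.dvd_gcd h1 hd
    rw [q.reduced.gcd_eq_one] at h2
    exact hp.out.one_lt.ne' (Nat.dvd_one.1 h2)
  have e : (q.num : ℚ_[p]) = (q : ℚ_[p]) * (q.den : ℚ_[p]) := by
    have := Rat.mul_den_eq_num q
    have h2 : ((q * (q.den : ℚ) : ℚ) : ℚ_[p]) = ((q.num : ℚ) : ℚ_[p]) := by rw [this]
    push_cast at h2
    exact h2.symm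
  have h3 := (Padic.norm_intCast_lt_one_iff (k := q.num) (p := p)).2 h
  rwa [e, norm_mul, hden, mul_one] at h3

/-- If the relations transfer for infinitely many primes, no relation between real zeta values
has a non-zero constant term. -/
theorem constantCoeff_eq_zero {m : ℕ} {k : Fin m → ℕ} (hk : ∀ i, 2 ≤ k i)
    (hinf : {p : ℕ | ∃ _ : Fact p.Prime, Transfers m k p}.Infinite)
    (f : MvPolynomial (Fin m) ℚ) (hf : MvPolynomial.aeval (fun i => zetaR (k i)) f = 0) :
    MvPolynomial.constantCoeff f = 0 := by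
  by_contra hne
  obtain ⟨P, hP⟩ := lowest_part hk f 0 (fun v hv => absurd hv (Nat.not_lt_zero v))
  obtain ⟨p, ⟨hp, hpT⟩, hpgt⟩ := hinf.exists_gt (max P (MvPolynomial.constantCoeff f).num.natAbs)
  have h1 := hP p ((le_max_left _ _).trans_lt hpgt) hp (hpT f hf)
  rw [MvPolynomial.weightedHomogeneousComponent_zero f (fun i => by have := hk i; omega),
    MvPolynomial.eval_C] at h1
  have h2 : (MvPolynomial.constantCoeff f).num.natAbs < p := (le_max_right _ _).trans_lt hpgt
  have h3 := Int.natAbs_dvd_natAbs.2 h1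
  rw [Int.natAbs_natCast] at h3
  exact absurd (Nat.le_of_dvd (Int.natAbs_pos.2 (Rat.num_ne_zero.2 hne)) h3) (not_le.2 h2)

/-- If the relations transfer for infinitely many primes, then an algebraic element of
`ℚ[ζ(k 0), …]` is the constant term of every polynomial expressing it. -/
theorem aeval_eq_constantCoeff {m : ℕ} {k : Fin m → ℕ} (hk : ∀ i, 2 ≤ k i)
    (hinf : {p : ℕ | ∃ _ : Fact p.Prime, Transfers m k p}.Infinite)
    (F : MvPolynomial (Fin m) ℚ)
    (hF : IsAlgebraic ℚ (MvPolynomial.aeval (fun i => zetaR (k i)) F)) :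
    MvPolynomial.aeval (fun i => zetaR (k i)) F = ((MvPolynomial.constantCoeff F : ℚ) : ℝ) := by
  by_contra hne
  set c : ℚ := MvPolynomial.constantCoeff F with hc
  set G : MvPolynomial (Fin m) ℚ := F - MvPolynomial.C c with hG
  set β : ℝ := MvPolynomial.aeval (fun i => zetaR (k i)) G with hβ
  have hβe : β = MvPolynomial.aeval (fun i => zetaR (k i)) F - (c : ℝ) := by
    rw [hβ, hG, map_sub, MvPolynomial.aeval_C]
    simp
  have hβ0 : β ≠ 0 := by rw [hβe]; exact sub_ne_zero.2 hne
  have hβalg : IsAlgebraic ℚ β := by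
    rw [hβe]
    exact hF.sub (isAlgebraic_algebraMap (R := ℚ) (A := ℝ) c)
  have hint : IsIntegral ℚ β := hβalg.isIntegral
  set f : MvPolynomial (Fin m) ℚ := Polynomial.aeval G (minpoly ℚ β) with hf
  have h1 : MvPolynomial.aeval (fun i => zetaR (k i)) f = 0 := by
    rw [hf, ← Polynomial.aeval_algHom_apply, ← hβ, minpoly.aeval]
  have h2 := constantCoeff_eq_zero hk hinf f h1
  have hG0 : MvPolynomial.constantCoeff G = 0 := by
    rw [hG, map_sub, MvPolynomial.constantCoeff_C, hc, sub_self]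
  have h3 : MvPolynomial.constantCoeff f = (minpoly ℚ β).coeff 0 := by
    rw [hf, Polynomial.aeval_def, Polynomial.hom_eval₂, hG0, Polynomial.eval₂_at_zero]
    simp
  rw [h3] at h2
  exact (minpoly.coeff_zero_ne_zero hint hβ0) h2

lemma infinite_primes_fact {Q : (p : ℕ) → [Fact p.Prime] → Prop}
    (h : ∀ (p : ℕ) (_ : Fact p.Prime), Q p) : {p : ℕ | ∃ _ : Fact p.Prime, Q p}.Infinite := by
  refine Nat.infinite_setOfPred_prime.mono ?_
  intro p hp
  exact ⟨⟨hp⟩, h p ⟨hp⟩⟩

/-- if the relations of a family transfer for infinitely many primes, its members are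
transcendental -/
theorem transcendental_of_infinite {m : ℕ} {k : Fin m → ℕ} (hk : ∀ i, 2 ≤ k i)
    (hinf : {p : ℕ | ∃ _ : Fact p.Prime, Transfers m k p}.Infinite) (i : Fin m) :
    Transcendental ℚ (zetaR (k i)) := by
  intro halg
  have h1 := aeval_eq_constantCoeff hk hinf (MvPolynomial.X i)
    (by rw [MvPolynomial.aeval_X]; exact halg)
  rw [MvPolynomial.aeval_X, MvPolynomial.constantCoeff_X] at h1
  have := zetaR_pos (hk i)
  simp at h1
  exact this.ne' h1

/-- for one index the transfer of relations is equivalent to transcendence -/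
theorem transfers_one_iff {k : ℕ} (hk : 2 ≤ k) :
    (∀ (p : ℕ) (_ : Fact p.Prime), Transfers 1 (fun _ => k) p) ↔ Transcendental ℚ (zetaR k) := by
  constructor
  · intro h halg
    have hinf : {p : ℕ | ∃ _ : Fact p.Prime, Transfers 1 (fun _ => k) p}.Infinite :=
      infinite_primes_fact (Q := fun p _ => Transfers 1 (fun _ => k) p) h
    have h1 := aeval_eq_constantCoeff (m := 1) (k := fun _ => k) (fun _ => hk) hinf
      (MvPolynomial.X 0) (by rw [MvPolynomial.aeval_X]; exact halg)
    rw [MvPolynomial.aeval_X, MvPolynomial.constantCoeff_X] at h1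
    have := zetaR_pos hk
    simp at h1
    exact this.ne' h1
  · intro h p _ f hf
    have hind : AlgebraicIndependent ℚ (fun _ : Fin 1 => zetaR k) :=
      algebraicIndependent_unique_type_iff.2 h
    rw [hind.eq_zero_of_aeval_eq_zero f hf, map_zero]

lemma aeval_cons {A : Type*} [CommRing A] [Algebra ℚ A] {m : ℕ} (y : A) (s : Fin m → A)
    (f : MvPolynomial (Fin (m + 1)) ℚ) :
    MvPolynomial.aeval (Fin.cons y s : Fin (m + 1) → A) f
      = Polynomial.eval₂ ((MvPolynomial.aeval s : MvPolynomial (Fin m) ℚ →ₐ[ℚ] A) : _ →+* A) y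
        (MvPolynomial.finSuccEquiv ℚ m f) := by
  induction f using MvPolynomial.induction_on with
  | C a =>
    rw [MvPolynomial.aeval_C]
    have : MvPolynomial.finSuccEquiv ℚ m (MvPolynomial.C a) = Polynomial.C (MvPolynomial.C a) :=
      (MvPolynomial.finSuccEquiv ℚ m).commutes a
    rw [this, Polynomial.eval₂_C]
    simp
  | add f g hf hg => rw [map_add, map_add, Polynomial.eval₂_add, hf, hg]
  | mul_X f i hf =>
    rw [map_mul, map_mul, Polynomial.eval₂_mul, hf, MvPolynomial.aeval_X]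
    congr 1
    refine Fin.cases ?_ (fun j => ?_) i
    · rw [MvPolynomial.finSuccEquiv_X_zero, Polynomial.eval₂_X, Fin.cons_zero]
    · rw [MvPolynomial.finSuccEquiv_X_succ, Polynomial.eval₂_C, Fin.cons_succ]
      simp

/-- a relation can be divided by the first variable until it is not divisible by it -/
lemma exists_relation_coeff_ne_zero {m : ℕ} {y : ℝ} (hy : y ≠ 0) (s : Fin m → ℝ) :
    ∀ (n : ℕ) (f : MvPolynomial (Fin (m + 1)) ℚ), f ≠ 0 →
      (MvPolynomial.finSuccEquiv ℚ m f).natDegree = n →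
      MvPolynomial.aeval (Fin.cons y s : Fin (m + 1) → ℝ) f = 0 →
      ∃ f' : MvPolynomial (Fin (m + 1)) ℚ,
        MvPolynomial.aeval (Fin.cons y s : Fin (m + 1) → ℝ) f' = 0 ∧
        (MvPolynomial.finSuccEquiv ℚ m f').coeff 0 ≠ 0 := by
  intro n
  induction n with
  | zero =>
    intro f hf hdeg h0
    refine ⟨f, h0, ?_⟩
    intro hc
    apply hf
    have h1 := Polynomial.eq_C_of_natDegree_eq_zero hdeg
    rw [hc, Polynomial.C_0] at h1
    exact (MvPolynomial.finSuccEquiv ℚ m).injective (by rw [h1, map_zero])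
  | succ n ih =>
    intro f hf hdeg h0
    by_cases hc : (MvPolynomial.finSuccEquiv ℚ m f).coeff 0 = 0
    · set F := MvPolynomial.finSuccEquiv ℚ m f with hF
      have hdiv : F = Polynomial.divX F * Polynomial.X := by
        have := Polynomial.divX_mul_X_add F
        rw [hc, Polynomial.C_0, add_zero] at this
        exact this.symm
      set f' := (MvPolynomial.finSuccEquiv ℚ m).symm (Polynomial.divX F) with hf'
      have hFf' : MvPolynomial.finSuccEquiv ℚ m f' = Polynomial.divX F := by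
        rw [hf']; exact (MvPolynomial.finSuccEquiv ℚ m).apply_symm_apply _
      have hf'0 : f' ≠ 0 := by
        intro h
        apply hf
        apply (MvPolynomial.finSuccEquiv ℚ m).injective
        rw [map_zero, ← hF, hdiv, ← hFf', h, map_zero, zero_mul]
      refine ih f' hf'0 ?_ ?_
      · rw [hFf', Polynomial.natDegree_divX_eq_natDegree_tsub_one, hdeg]
        rfl
      · rw [aeval_cons, hFf']
        rw [aeval_cons, ← hF, hdiv, Polynomial.eval₂_mul, Polynomial.eval₂_X] at h0
        exact (mul_eq_zero.1 h0).resolve_right hy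
    · exact ⟨f, h0, hc⟩

lemma comp_cons {A : Type*} (z : ℕ → A) {m : ℕ} (k : Fin m → ℕ) :
    (fun i => z ((Fin.cons 2 k : Fin (m + 1) → ℕ) i)) = Fin.cons (z 2) (fun i => z (k i)) := by
  funext i
  refine Fin.cases ?_ (fun j => ?_) i
  · simp
  · simp

/-- If `ζ(2), ζ(k_1), …, ζ(k_m)` are algebraically dependent, there is one non-zero polynomial that
vanishes at `(ζ_p(k_1), …, ζ_p(k_m))` for all primes for which the relations transfer. -/
theorem exists_padic_relation {m : ℕ} (k : Fin m → ℕ)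
    (hdep : ¬ AlgebraicIndependent ℚ
      (fun i => zetaR ((Fin.cons 2 k : Fin (m + 1) → ℕ) i))) :
    ∃ g : MvPolynomial (Fin m) ℚ, g ≠ 0 ∧ ∀ (p : ℕ) (_ : Fact p.Prime),
      Transfers (m + 1) (Fin.cons 2 k) p → MvPolynomial.aeval (fun i => zetaP p (k i)) g = 0 := by
  rw [algebraicIndependent_iff] at hdep
  push Not at hdep
  obtain ⟨f, hf0, hf⟩ := hdep
  rw [comp_cons zetaR k] at hf0
  obtain ⟨f', hf'0, hf'⟩ := exists_relation_coeff_ne_zero (zetaR_pos (le_refl 2)).ne'
    (fun i => zetaR (k i)) _ f hf rfl hf0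
  refine ⟨_, hf', fun p hp hT => ?_⟩
  have h1 := hT f' (by rw [comp_cons zetaR k]; exact hf'0)
  rw [comp_cons (zetaP p) k, zetaP_even even_two (le_refl 2), aeval_cons,
    Polynomial.eval₂_at_zero] at h1
  exact h1

/-- … and its lowest weight part vanishes modulo `p` at the numbers `-B_{p-k_i}/k_i` for all but
finitely many of these primes. -/
theorem exists_bernoulli_relation {m : ℕ} {k : Fin m → ℕ} (hk : ∀ i, 2 ≤ k i)
    (hdep : ¬ AlgebraicIndependent ℚ
      (fun i => zetaR ((Fin.cons 2 k : Fin (m + 1) → ℕ) i))) :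
    ∃ (g : MvPolynomial (Fin m) ℚ) (w : ℕ),
      (∀ v < w, MvPolynomial.weightedHomogeneousComponent k v g = 0) ∧
      MvPolynomial.weightedHomogeneousComponent k w g ≠ 0 ∧
      (∀ (p : ℕ) (_ : Fact p.Prime), Transfers (m + 1) (Fin.cons 2 k) p →
        MvPolynomial.aeval (fun i => zetaP p (k i)) g = 0) ∧
      {p : ℕ | ∃ _ : Fact p.Prime, Transfers (m + 1) (Fin.cons 2 k) p ∧
        ¬ (p : ℤ) ∣ (MvPolynomial.eval (fun i => -(bernoulli (p - k i)) / (k i : ℚ))
          (MvPolynomial.weightedHomogeneousComponent k w g)).num}.Finite := by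
  classical
  obtain ⟨g, hg0, hg⟩ := exists_padic_relation k hdep
  have hex : ∃ w, MvPolynomial.weightedHomogeneousComponent k w g ≠ 0 := by
    by_contra hcon
    push Not at hcon
    apply hg0
    rw [← MvPolynomial.finsum_weightedHomogeneousComponent (w := k) g]
    simp only [hcon, finsum_zero]
  have hmin : ∀ v < Nat.find hex, MvPolynomial.weightedHomogeneousComponent k v g = 0 := by
    intro v hv
    by_contra h
    exact Nat.find_min hex hv h
  refine ⟨g, Nat.find hex, hmin, Nat.find_spec hex, hg, ?_⟩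
  obtain ⟨P, hP⟩ := lowest_part hk g (Nat.find hex) hmin
  refine (Set.finite_Iic P).subset ?_
  rintro p ⟨hp, hT, hnd⟩
  by_contra hlt
  exact hnd (hP p (not_le.1 hlt) hp (hg p hp hT))

/-- `ζ_p(k) ≠ 0` if `p` does not divide the numerator of `B_{p-k}`. -/
theorem zetaP_ne_zero {p : ℕ} [hp : Fact p.Prime] {k : ℕ} (hk : 2 ≤ k) (hkp : k + 2 ≤ p)
    (h : ¬ (p : ℤ) ∣ (bernoulli (p - k)).num) : zetaP p k ≠ 0 := by
  intro h0
  apply h
  have hp1 : (1 : ℝ) < p := by exact_mod_cast hp.out.one_lt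
  have hp0 : (p : ℚ_[p]) ≠ 0 := by exact_mod_cast hp.out.ne_zero
  obtain ⟨u, hu1, -, hu3⟩ := exists_unit_part (p := p) hk hkp
  rw [h0] at hu1
  have hu : u = 0 := by
    rcases mul_eq_zero.1 hu1.symm with h | h
    · exact absurd h (pow_ne_zero _ hp0)
    · exact h
  rw [hu, zero_sub, norm_neg] at hu3
  push_cast at hu3
  apply dvd_num_of_norm_lt_one (p := p)
  have hk0 : (k : ℚ_[p]) ≠ 0 := by exact_mod_cast (by omega : k ≠ 0)
  have e : ((bernoulli (p - k) : ℚ) : ℚ_[p])
      = -((-((bernoulli (p - k) : ℚ) : ℚ_[p]) / (k : ℚ_[p])) * (k : ℚ_[p])) := by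
    field_simp
  rw [e, norm_neg, norm_mul]
  exact (mul_le_of_le_one_right (norm_nonneg _) (norm_natCast_le_one _)).trans_lt
    (hu3.trans_lt (inv_lt_one_of_one_lt₀ hp1))

/-- The case of one index besides `2`. -/
theorem pair_independent {k : ℕ} (hk : 2 ≤ k)
    (hinf : {p : ℕ | ∃ _ : Fact p.Prime, Transfers 2 ![2, k] p ∧ zetaP p k ≠ 0}.Infinite) :
    AlgebraicIndependent ℚ ![zetaR 2, zetaR k] := by
  classical
  by_contra hdep
  have hcons : (Fin.cons 2 (fun _ : Fin 1 => k) : Fin 2 → ℕ) = ![2, k] := by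
    funext i
    fin_cases i <;> rfl
  have hz : (fun i => zetaR ((Fin.cons 2 (fun _ : Fin 1 => k) : Fin 2 → ℕ) i))
      = ![zetaR 2, zetaR k] := by
    funext i
    fin_cases i <;> rfl
  obtain ⟨g, h0, hg⟩ := exists_padic_relation (fun _ : Fin 1 => k) (by rw [hz]; exact hdep)
  rw [hcons] at hg
  -- pass to one variable
  set G : Polynomial ℚ := MvPolynomial.uniqueAlgEquiv ℚ (Fin 1) g with hG
  have hG0 : G ≠ 0 := by
    rw [hG]
    intro h
    exact h0 ((MvPolynomial.uniqueAlgEquiv ℚ (Fin 1)).injective (by rw [h, map_zero]))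
  obtain ⟨G1, hG1, hnd⟩ := Polynomial.exists_eq_pow_rootMultiplicity_mul_and_not_dvd G hG0 0
  rw [Polynomial.C_0, sub_zero] at hG1 hnd
  rw [Polynomial.X_dvd_iff] at hnd
  -- the polynomial without zero at the origin
  set g1 : MvPolynomial (Fin 1) ℚ := Polynomial.aeval (MvPolynomial.X 0) G1 with hg1
  have hcc : MvPolynomial.coeff 0 g1 = G1.coeff 0 := by
    have : MvPolynomial.constantCoeff g1 = G1.coeff 0 := by
      rw [hg1, Polynomial.aeval_def, Polynomial.hom_eval₂, MvPolynomial.constantCoeff_X,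
        Polynomial.eval₂_at_zero]
      simp
    exact this
  obtain ⟨P, hP⟩ := lowest_part (k := fun _ : Fin 1 => k) (fun _ => hk) g1 0
    (fun v hv => absurd hv (Nat.not_lt_zero v))
  obtain ⟨p, ⟨hp, hT, hne⟩, hpgt⟩ := hinf.exists_gt (max P (G1.coeff 0).num.natAbs)
  have h1 : MvPolynomial.aeval (fun _ : Fin 1 => zetaP p k) g1 = 0 := by
    have h2 := hg p hp hT
    have key : ∀ x : ℚ_[p], MvPolynomial.aeval (fun _ : Fin 1 => x) g = Polynomial.aeval x G := by
      intro x
      have e : (MvPolynomial.aeval (fun _ : Fin 1 => x) : MvPolynomial (Fin 1) ℚ →ₐ[ℚ] ℚ_[p])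
          = (Polynomial.aeval (R := ℚ) x).comp
            (MvPolynomial.uniqueAlgEquiv ℚ (Fin 1)).toAlgHom := by
        ext y
        simp
      rw [e, hG]
      rfl
    rw [key, hG1, map_mul, map_pow, Polynomial.aeval_X] at h2
    have h3 := (mul_eq_zero.1 h2).resolve_left (pow_ne_zero _ hne)
    rw [hg1, ← Polynomial.aeval_algHom_apply, MvPolynomial.aeval_X]
    exact h3
  have h2 := hP p ((le_max_left _ _).trans_lt hpgt) hp h1
  rw [MvPolynomial.weightedHomogeneousComponent_zero g1 (fun i => by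
    show k ≠ 0
    omega), MvPolynomial.eval_C, hcc] at h2
  have h4 : (G1.coeff 0).num.natAbs < p := (le_max_right _ _).trans_lt hpgt
  have h3 := Int.natAbs_dvd_natAbs.2 h2
  rw [Int.natAbs_natCast] at h3
  exact absurd (Nat.le_of_dvd (Int.natAbs_pos.2 (Rat.num_ne_zero.2 hnd)) h3) (not_le.2 h4)

/-- If the real values are algebraically independent, all relations transfer. -/
lemma transfers_of_independent {m : ℕ} {k : Fin m → ℕ}
    (h : AlgebraicIndependent ℚ (fun i => zetaR (k i))) (p : ℕ) [Fact p.Prime] :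
    Transfers m k p := by
  intro f hf
  rw [h.eq_zero_of_aeval_eq_zero f hf, map_zero]

end Pool.Agent.Work.MP_03df5c_h91
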