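import Mathlib

open Filter Topology Finset

namespace Pool.Agent.Work.MP_03df5c_h91

/-- The exponents `n_M = (k-1)(p^M(p-1)-1)`. They satisfy `n_M + (k-1) = (k-1) p^M (p-1)`, so
`n_M ≡ 1 - k` modulo `p - 1` and `n_M → 1 - k` in `ℤ_p` as `M → ∞`. -/
def nSeq (p k M : ℕ) : ℕ := (k - 1) * (p ^ M * (p - 1) - 1)

/-- The value `-(1 - p^{n-1}) B_n / n` of the Kubota-Leopoldt `p`-adic zeta function at `1 - n`,
for `n = n_M = nSeq p k M` (`bernoulli` is Mathlib's sequence of Bernoulli numbers). -/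
noncomputable def klApprox (p : ℕ) [Fact p.Prime] (k M : ℕ) : ℚ_[p] :=
  -((1 - (p : ℚ_[p]) ^ (nSeq p k M - 1)) * ((bernoulli (nSeq p k M) : ℚ) : ℚ_[p]))
    / (nSeq p k M : ℚ_[p])

/-- The Kubota-Leopoldt `p`-adic zeta value at `k`, that is `L_p(k, ω^{1-k})`: the limit of the
classical values `-(1 - p^{n-1}) B_n / n` as `n = n_M → 1 - k` in `ℤ_p`, `n ≡ 1 - k` modulo
`p - 1`. -/
noncomputable def kubotaLeopoldt (p : ℕ) [Fact p.Prime] (k : ℕ) : ℚ_[p] :=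
  limUnder atTop (klApprox p k)

/-- The `p`-adic zeta value `ζ_p(k) = (1 - p^{-k})^{-1} L_p(k, ω^{1-k})`. -/
noncomputable def zetaP (p : ℕ) [Fact p.Prime] (k : ℕ) : ℚ_[p] :=
  (1 - ((p : ℚ_[p]) ^ k)⁻¹)⁻¹ * kubotaLeopoldt p k

/-- The real zeta value `ζ(k) = ∑_{n ≥ 1} 1/n^k`. -/
noncomputable def zetaR (k : ℕ) : ℝ := ∑' n : ℕ, 1 / ((n : ℝ) + 1) ^ k

/-- `Transfers m k p`: every polynomial relation with rational coefficients between the real
zeta values `ζ(k 0), …, ζ(k (m-1))` also holds between the `p`-adic ones. -/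
def Transfers (m : ℕ) (k : Fin m → ℕ) (p : ℕ) [Fact p.Prime] : Prop :=
  ∀ f : MvPolynomial (Fin m) ℚ, MvPolynomial.aeval (fun i => zetaR (k i)) f = 0 →
    MvPolynomial.aeval (fun i => zetaP p (k i)) f = 0

end Pool.Agent.Work.MP_03df5c_h91
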