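import Pool.Agent.Work.MP_03df5c_h91.Volk

open Filter Topology Finset

namespace Pool.Agent.Work.MP_03df5c_h91

variable {p : ℕ} [hp : Fact p.Prime]

lemma volk_sub_le (n N : ℕ) : ‖volk p n (N + 1) - volk p n N‖ ≤ (p : ℝ) ^ (2 - (N : ℤ)) := by
  have hp1 : (1 : ℝ) < p := by exact_mod_cast hp.out.one_lt
  have hp0 : (0 : ℝ) < p := by linarith
  have h := volk_succ_sub (p := p) n N
  have e : volk p n (N + 1) - volk p n N = (volk p n (N + 1) - volk p n N
      - (n : ℚ_[p]) * (((p : ℚ_[p]) - 1) / 2) * (p : ℚ_[p]) ^ N * volk p (n - 1) N)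
      + (n : ℚ_[p]) * (((p : ℚ_[p]) - 1) / 2) * (p : ℚ_[p]) ^ N * volk p (n - 1) N := by ring
  rw [e]
  refine norm_add_le_of_le (h.trans ?_) ?_
  · apply zpow_le_zpow_right₀ hp1.le; omega
  · rw [norm_mul, norm_mul, norm_mul, Padic.norm_p_pow]
    have h1 : ‖(n : ℚ_[p])‖ * ‖((p : ℚ_[p]) - 1) / 2‖ ≤ 1 * p :=
      mul_le_mul (norm_natCast_le_one _) (norm_half_le p) (norm_nonneg _) zero_le_one
    calc ‖(n : ℚ_[p])‖ * ‖((p : ℚ_[p]) - 1) / 2‖ * (p : ℝ) ^ (-(N : ℤ)) * ‖volk p (n - 1) N‖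
        ≤ (1 * p) * (p : ℝ) ^ (-(N : ℤ)) * p := by
          apply mul_le_mul (mul_le_mul h1 le_rfl (by positivity) (by positivity))
            (norm_volk_le (n - 1) N) (norm_nonneg _) (by positivity)
      _ = (p : ℝ) ^ (2 - (N : ℤ)) := by
          rw [one_mul, sub_eq_add_neg, zpow_add₀ hp0.ne']
          rw [show (2 : ℤ) = 1 + 1 by norm_num, zpow_add₀ hp0.ne', zpow_one]
          ring

lemma volk_sub_le' (n N j : ℕ) :
    ‖volk p n (N + j) - volk p n N‖ ≤ (p : ℝ) ^ (2 - (N : ℤ)) := by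
  have hp1 : (1 : ℝ) < p := by exact_mod_cast hp.out.one_lt
  induction j with
  | zero => simp; positivity
  | succ j ih =>
    have e : volk p n (N + (j + 1)) - volk p n N
        = (volk p n (N + j + 1) - volk p n (N + j)) + (volk p n (N + j) - volk p n N) := by
      rw [← add_assoc]; ring
    rw [e]
    refine norm_add_le_of_le ((volk_sub_le n (N + j)).trans ?_) ih
    apply zpow_le_zpow_right₀ hp1.le
    push_cast; omega

lemma volk_eq (n N : ℕ) :
    volk p n N = ∑ i ∈ range (n + 1),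
      (((bernoulli i * ((n + 1).choose i) / (n + 1) : ℚ)) : ℚ_[p])
        * ((p : ℚ_[p]) ^ (n - i)) ^ N := by
  have hp0 : (p : ℚ_[p]) ≠ 0 := by exact_mod_cast hp.out.ne_zero
  have h := sum_range_pow (p ^ N) n
  have h2 : powSum p n N = ((∑ k ∈ range (p ^ N), (k : ℚ) ^ n : ℚ) : ℚ_[p]) := by
    unfold powSum
    push_cast
    rfl
  unfold volk
  rw [h2, h]
  push_cast
  rw [mul_sum]
  refine sum_congr rfl fun i hi => ?_
  have hi' : i ≤ n := Nat.lt_succ_iff.1 (mem_range.1 hi)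
  have e : ((p : ℚ_[p]) ^ N) ^ (n + 1 - i) = (p : ℚ_[p]) ^ N * ((p : ℚ_[p]) ^ (n - i)) ^ N := by
    rw [show n + 1 - i = (n - i) + 1 by omega, pow_succ, ← pow_mul, ← pow_mul, mul_comm N (n - i)]
    ring
  rw [e]
  have hN : (p : ℚ_[p]) ^ N ≠ 0 := pow_ne_zero _ hp0
  have hn : ((n : ℚ_[p]) + 1) ≠ 0 := by exact_mod_cast Nat.succ_ne_zero n
  field_simp

lemma tendsto_volk (n : ℕ) :
    Tendsto (volk p n) atTop (𝓝 ((bernoulli n : ℚ) : ℚ_[p])) := by
  have hp1 : (1 : ℝ) < p := by exact_mod_cast hp.out.one_lt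
  have hterm : ∀ i ∈ range (n + 1), Tendsto (fun N : ℕ =>
      (((bernoulli i * ((n + 1).choose i) / (n + 1) : ℚ)) : ℚ_[p])
        * ((p : ℚ_[p]) ^ (n - i)) ^ N) atTop
      (𝓝 (if i = n then ((bernoulli n : ℚ) : ℚ_[p]) else 0)) := by
    intro i hi
    have hi' : i ≤ n := Nat.lt_succ_iff.1 (mem_range.1 hi)
    split_ifs with h
    · subst h
      have hn : ((i : ℚ) + 1) ≠ 0 := by exact_mod_cast Nat.succ_ne_zero i
      have : (bernoulli i * ((i + 1).choose i) / (i + 1) : ℚ) = bernoulli i := by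
        rw [Nat.choose_succ_self_right]
        push_cast
        field_simp
      rw [this]
      simp only [Nat.sub_self, pow_zero, one_pow, mul_one]
      exact tendsto_const_nhds
    · have hlt : ‖(p : ℚ_[p]) ^ (n - i)‖ < 1 := by
        rw [norm_pow]
        apply pow_lt_one₀ (norm_nonneg _) (Padic.norm_p_lt_one)
        omega
      have := (tendsto_pow_atTop_nhds_zero_of_norm_lt_one hlt).const_mul
        ((((bernoulli i * ((n + 1).choose i) / (n + 1) : ℚ)) : ℚ_[p]))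
      rwa [mul_zero] at this
  have h := tendsto_finsetSum (range (n + 1)) hterm
  have e : (∑ i ∈ range (n + 1), (if i = n then ((bernoulli n : ℚ) : ℚ_[p]) else 0))
      = ((bernoulli n : ℚ) : ℚ_[p]) := by
    rw [sum_ite_eq' (range (n + 1)) n]
    simp
  rw [e] at h
  refine h.congr fun N => ?_
  exact (volk_eq n N).symm

lemma norm_bernoulli_sub_volk_le (n N : ℕ) :
    ‖((bernoulli n : ℚ) : ℚ_[p]) - volk p n N‖ ≤ (p : ℝ) ^ (2 - (N : ℤ)) := by
  have h : Tendsto (fun j => volk p n (N + j) - volk p n N) atTop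
      (𝓝 (((bernoulli n : ℚ) : ℚ_[p]) - volk p n N)) := by
    apply Tendsto.sub_const
    have := (tendsto_add_atTop_iff_nat N).2 (tendsto_volk (p := p) n)
    refine this.congr fun j => ?_
    rw [add_comm]
  exact le_of_tendsto h.norm (Eventually.of_forall fun j => volk_sub_le' n N j)

/-- removing the multiples of `p` -/
lemma powSumU_succ (n N : ℕ) :
    powSumU p n (N + 1) = powSum p n (N + 1) - (p : ℚ_[p]) ^ n * powSum p n N := by
  have h1 : powSum p n (N + 1) = powSumU p n (N + 1)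
      + ∑ a ∈ (range (p ^ (N + 1))).filter (fun a => p ∣ a), (a : ℚ_[p]) ^ n := by
    unfold powSum powSumU
    rw [← sum_filter_add_sum_filter_not (range (p ^ (N + 1))) (fun a => p ∣ a)]
    ring
  have h2 : ∑ a ∈ (range (p ^ (N + 1))).filter (fun a => p ∣ a), (a : ℚ_[p]) ^ n
      = (p : ℚ_[p]) ^ n * powSum p n N := by
    unfold powSum
    rw [mul_sum]
    symm
    refine sum_nbij' (fun b => p * b) (fun a => a / p) ?_ ?_ ?_ ?_ ?_
    · intro b hb
      simp only [mem_filter, mem_range] at hb ⊢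
      refine ⟨?_, dvd_mul_right _ _⟩
      rw [pow_succ, mul_comm]
      exact Nat.mul_lt_mul_of_pos_right hb hp.out.pos
    · intro a ha
      simp only [mem_filter, mem_range] at ha ⊢
      rw [Nat.div_lt_iff_lt_mul hp.out.pos, ← pow_succ]
      exact ha.1
    · intro b _
      exact Nat.mul_div_cancel_left b hp.out.pos
    · intro a ha
      simp only [mem_filter, mem_range] at ha
      exact Nat.mul_div_cancel' ha.2
    · intro b _
      push_cast
      rw [mul_pow]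
  rw [h1, h2]; ring

lemma norm_powSumU_sub_le {n : ℕ} (hn : 1 ≤ n) (N : ℕ) :
    ‖((p : ℚ_[p]) ^ (N + 1))⁻¹ * powSumU p n (N + 1)
      - (1 - (p : ℚ_[p]) ^ (n - 1)) * ((bernoulli n : ℚ) : ℚ_[p])‖ ≤ (p : ℝ) ^ (2 - (N : ℤ)) := by
  have hp0 : (p : ℚ_[p]) ≠ 0 := by exact_mod_cast hp.out.ne_zero
  have hp1 : (1 : ℝ) < p := by exact_mod_cast hp.out.one_lt
  have e : ((p : ℚ_[p]) ^ (N + 1))⁻¹ * powSumU p n (N + 1)
      - (1 - (p : ℚ_[p]) ^ (n - 1)) * ((bernoulli n : ℚ) : ℚ_[p])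
      = (p : ℚ_[p]) ^ (n - 1) * (((bernoulli n : ℚ) : ℚ_[p]) - volk p n N)
        - (((bernoulli n : ℚ) : ℚ_[p]) - volk p n (N + 1)) := by
    rw [powSumU_succ]
    unfold volk
    obtain ⟨s, rfl⟩ : ∃ s, n = s + 1 := ⟨n - 1, by omega⟩
    have hN : (p : ℚ_[p]) ^ N ≠ 0 := pow_ne_zero _ hp0
    simp only [Nat.add_sub_cancel]
    rw [pow_succ (p : ℚ_[p]) N, pow_succ (p : ℚ_[p]) s]
    field_simp
    ring
  rw [e]
  refine norm_sub_le_of_le ?_ ?_
  · rw [norm_mul]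
    refine (mul_le_of_le_one_left (norm_nonneg _) ?_).trans (norm_bernoulli_sub_volk_le n N)
    rw [norm_pow]
    exact pow_le_one₀ (norm_nonneg _) (Padic.norm_p_lt_one).le
  · refine (norm_bernoulli_sub_volk_le n (N + 1)).trans ?_
    apply zpow_le_zpow_right₀ hp1.le
    push_cast; omega

omit hp in
lemma one_le_of_prime (M : ℕ) (hp' : p.Prime) : 1 ≤ p ^ M * (p - 1) :=
  Nat.mul_pos (pow_pos hp'.pos M) (by have := hp'.one_lt; omega)

lemma nSeq_add (k M : ℕ) : nSeq p k M + (k - 1) = (k - 1) * (p ^ M * (p - 1)) := by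
  have h := one_le_of_prime M hp.out
  unfold nSeq
  calc (k - 1) * (p ^ M * (p - 1) - 1) + (k - 1)
      = (k - 1) * ((p ^ M * (p - 1) - 1) + 1) := by ring
    _ = (k - 1) * (p ^ M * (p - 1)) := by rw [Nat.sub_add_cancel h]

lemma norm_pow_nSeq_sub_le {a : ℕ} (ha : ¬ p ∣ a) (k M : ℕ) :
    ‖(a : ℚ_[p]) ^ nSeq p k M - ((a : ℚ_[p]) ^ (k - 1))⁻¹‖ ≤ (p : ℝ) ^ (-((M + 1 : ℕ) : ℤ)) := by
  have ha1 : ‖(a : ℚ_[p])‖ = 1 := norm_nat_eq_one ha
  have ha0 : (a : ℚ_[p]) ≠ 0 := by rintro h; rw [h] at ha1; simp at ha1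
  have e : (a : ℚ_[p]) ^ nSeq p k M - ((a : ℚ_[p]) ^ (k - 1))⁻¹
      = ((a : ℚ_[p]) ^ ((k - 1) * (p ^ M * (p - 1))) - 1) * ((a : ℚ_[p]) ^ (k - 1))⁻¹ := by
    rw [← nSeq_add, pow_add]
    field_simp
  rw [e, norm_mul, norm_inv, norm_pow, ha1]
  simp only [one_pow, inv_one, mul_one]
  have hcop : Nat.Coprime a (p ^ (M + 1)) :=
    Nat.Coprime.pow_right _ ((Nat.Prime.coprime_iff_not_dvd hp.out).2 ha).symm
  have h1 := Nat.ModEq.pow_totient hcop
  rw [Nat.totient_prime_pow_succ hp.out] at h1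
  have h2 := h1.pow (k - 1)
  rw [← pow_mul, one_pow, mul_comm] at h2
  have h3 : ((p ^ (M + 1) : ℕ) : ℤ) ∣ ((a : ℤ) ^ ((k - 1) * (p ^ M * (p - 1))) - 1) := by
    have := (Nat.modEq_iff_dvd.1 h2.symm)
    push_cast at this ⊢
    exact this
  have h4 := (Padic.norm_int_le_pow_iff_dvd (p := p) ((a : ℤ) ^ ((k - 1) * (p ^ M * (p - 1))) - 1)
    (M + 1)).2 (by exact_mod_cast h3)
  push_cast at h4
  push_cast
  exact h4

lemma norm_powSumU_nSeq_sub_le (k M N : ℕ) :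
    ‖powSumU p (nSeq p k M) N - invPowSum p (k - 1) N‖ ≤ (p : ℝ) ^ (-((M + 1 : ℕ) : ℤ)) := by
  unfold powSumU invPowSum
  rw [← sum_sub_distrib]
  refine norm_sum_le_of_le _ _ (by positivity) fun a ha => ?_
  exact norm_pow_nSeq_sub_le (mem_filter.1 ha).2 k M

lemma tendsto_nSeq_cast {k : ℕ} (hk : 1 ≤ k) :
    Tendsto (fun M => (nSeq p k M : ℚ_[p])) atTop (𝓝 (1 - (k : ℚ_[p]))) := by
  have e : ∀ M, (nSeq p k M : ℚ_[p])
      = (1 - (k : ℚ_[p])) + ((k : ℚ_[p]) - 1) * ((p : ℚ_[p]) - 1) * (p : ℚ_[p]) ^ M := by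
    intro M
    have h := nSeq_add (p := p) k M
    have h' : ((nSeq p k M + (k - 1) : ℕ) : ℚ_[p]) = (((k - 1) * (p ^ M * (p - 1)) : ℕ) : ℚ_[p]) := by
      rw [h]
    have hp1 : 1 ≤ p := hp.out.one_lt.le
    push_cast [Nat.cast_sub hk, Nat.cast_sub hp1] at h'
    linear_combination h'
  simp_rw [e]
  have h := (tendsto_pow_atTop_nhds_zero_of_norm_lt_one (Padic.norm_p_lt_one (p := p))).const_mul
    (((k : ℚ_[p]) - 1) * ((p : ℚ_[p]) - 1))
  have h2 := h.const_add (1 - (k : ℚ_[p]))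
  simpa using h2

lemma one_le_nSeq {k : ℕ} (hk : 2 ≤ k) {M : ℕ} (hM : 1 ≤ M) : 1 ≤ nSeq p k M := by
  unfold nSeq
  have h2 := hp.out.two_le
  have h3 : 2 ≤ p ^ M := h2.trans (Nat.le_self_pow (by omega) p)
  have h1 : 2 ≤ p ^ M * (p - 1) := by
    calc 2 ≤ p ^ M * 1 := by omega
      _ ≤ p ^ M * (p - 1) := Nat.mul_le_mul_left _ (by omega)
  have : 1 * 1 ≤ (k - 1) * (p ^ M * (p - 1) - 1) := Nat.mul_le_mul (by omega) (by omega)
  simpa using this

lemma tendsto_klApprox_num {k : ℕ} (hk : 2 ≤ k) :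
    Tendsto (fun M => (1 - (p : ℚ_[p]) ^ (nSeq p k M - 1)) * ((bernoulli (nSeq p k M) : ℚ) : ℚ_[p]))
      atTop (𝓝 (limUnder atTop (klSum p k))) := by
  have hp1 : (1 : ℝ) < p := by exact_mod_cast hp.out.one_lt
  have hp0 : (0 : ℝ) < p := by linarith
  -- compare with `klSum` at `N + 1`, `N = M / 2`
  have hdiff : ∀ M, 1 ≤ M → ‖(1 - (p : ℚ_[p]) ^ (nSeq p k M - 1))
      * ((bernoulli (nSeq p k M) : ℚ) : ℚ_[p]) - klSum p k (M / 2 + 1)‖
      ≤ (p : ℝ) ^ (2 - ((M / 2 : ℕ) : ℤ)) := by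
    intro M hM
    set N := M / 2 with hN
    have h1 := norm_powSumU_sub_le (p := p) (one_le_nSeq (p := p) hk hM) N
    have h2 : ‖((p : ℚ_[p]) ^ (N + 1))⁻¹ * (powSumU p (nSeq p k M) (N + 1)
        - invPowSum p (k - 1) (N + 1))‖ ≤ (p : ℝ) ^ (2 - (N : ℤ)) := by
      rw [norm_mul, norm_inv, Padic.norm_p_pow]
      have h3 := norm_powSumU_nSeq_sub_le (p := p) k M (N + 1)
      calc ((p : ℝ) ^ (-((N + 1 : ℕ) : ℤ)))⁻¹ * _
          ≤ ((p : ℝ) ^ (-((N + 1 : ℕ) : ℤ)))⁻¹ * (p : ℝ) ^ (-((M + 1 : ℕ) : ℤ)) :=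
            mul_le_mul_of_nonneg_left h3 (by positivity)
        _ = (p : ℝ) ^ ((N : ℤ) - M) := by
            rw [← zpow_neg, ← zpow_add₀ hp0.ne']
            congr 1
            push_cast
            ring
        _ ≤ (p : ℝ) ^ (2 - (N : ℤ)) := by
            apply zpow_le_zpow_right₀ hp1.le
            omega
    have e : (1 - (p : ℚ_[p]) ^ (nSeq p k M - 1))
        * ((bernoulli (nSeq p k M) : ℚ) : ℚ_[p]) - klSum p k (N + 1)
        = ((p : ℚ_[p]) ^ (N + 1))⁻¹ * (powSumU p (nSeq p k M) (N + 1)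
          - invPowSum p (k - 1) (N + 1))
          - (((p : ℚ_[p]) ^ (N + 1))⁻¹ * powSumU p (nSeq p k M) (N + 1)
          - (1 - (p : ℚ_[p]) ^ (nSeq p k M - 1)) * ((bernoulli (nSeq p k M) : ℚ) : ℚ_[p])) := by
      unfold klSum
      ring
    rw [e]
    exact norm_sub_le_of_le h2 h1
  have hhalf : Tendsto (fun M : ℕ => M / 2) atTop atTop :=
    Nat.tendsto_div_const_atTop (by norm_num)
  have hlim1 : Tendsto (fun M : ℕ => klSum p k (M / 2 + 1)) atTop
      (𝓝 (limUnder atTop (klSum p k))) :=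
    (tendsto_klSum p hk).comp ((tendsto_add_atTop_nat 1).comp hhalf)
  have hz : Tendsto (fun M : ℕ => (p : ℝ) ^ (2 - ((M / 2 : ℕ) : ℤ))) atTop (𝓝 0) := by
    have h1 : Tendsto (fun N : ℕ => (p : ℝ) ^ (2 : ℤ) * (1 / (p : ℝ)) ^ N) atTop (𝓝 0) := by
      have := (tendsto_pow_atTop_nhds_zero_of_lt_one (r := 1 / (p : ℝ)) (by positivity)
        (by rw [div_lt_one hp0]; exact hp1)).const_mul ((p : ℝ) ^ (2 : ℤ))
      rwa [mul_zero] at this
    refine (h1.comp hhalf).congr fun M => ?_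
    simp only [Function.comp]
    rw [zpow_sub₀ hp0.ne', zpow_natCast, one_div, inv_pow, div_eq_mul_inv]
  have hlim2 : Tendsto (fun M => (1 - (p : ℚ_[p]) ^ (nSeq p k M - 1))
      * ((bernoulli (nSeq p k M) : ℚ) : ℚ_[p]) - klSum p k (M / 2 + 1)) atTop (𝓝 0) := by
    rw [tendsto_zero_iff_norm_tendsto_zero]
    refine squeeze_zero' (Eventually.of_forall fun _ => norm_nonneg _) ?_ hz
    filter_upwards [eventually_ge_atTop 1] with M hM using hdiff M hM
  have := hlim2.add hlim1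
  rw [zero_add] at this
  refine this.congr fun M => ?_
  ring

/-- The interpolated values converge, and their limit is the `p`-adic integral. -/
theorem tendsto_klApprox {k : ℕ} (hk : 2 ≤ k) :
    Tendsto (klApprox p k) atTop (𝓝 (((k : ℚ_[p]) - 1)⁻¹ * limUnder atTop (klSum p k))) := by
  have hk1 : ((k : ℚ_[p]) - 1) ≠ 0 := by
    have : ((k : ℚ_[p]) - 1) = ((k - 1 : ℕ) : ℚ_[p]) := by
      rw [Nat.cast_sub (by omega)]; simp
    rw [this]
    exact_mod_cast (by omega : k - 1 ≠ 0)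
  have hk1' : (1 - (k : ℚ_[p])) ≠ 0 := by
    intro h; apply hk1; linear_combination -h
  have h1 := (tendsto_klApprox_num (p := p) hk).neg.div (tendsto_nSeq_cast (p := p) (by omega : 1 ≤ k)) hk1'
  have e : -limUnder atTop (klSum p k) / (1 - (k : ℚ_[p]))
      = ((k : ℚ_[p]) - 1)⁻¹ * limUnder atTop (klSum p k) := by
    rw [div_eq_iff hk1']
    field_simp
    ring
  rw [e] at h1
  exact h1

theorem tendsto_kubotaLeopoldt {k : ℕ} (hk : 2 ≤ k) :
    Tendsto (klApprox p k) atTop (𝓝 (kubotaLeopoldt p k)) :=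
  tendsto_nhds_limUnder ⟨_, tendsto_klApprox hk⟩

theorem kubotaLeopoldt_eq {k : ℕ} (hk : 2 ≤ k) :
    kubotaLeopoldt p k = ((k : ℚ_[p]) - 1)⁻¹ * limUnder atTop (klSum p k) :=
  tendsto_nhds_unique (tendsto_kubotaLeopoldt hk) (tendsto_klApprox hk)

end Pool.Agent.Work.MP_03df5c_h91
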