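import Pool.Agent.Work.MP_6dc561_nt.Zeta2

/-!
# A number field with homomorphisms to almost all `ZMod p` is `ℚ`
-/

open Filter Topology NumberField IsDedekindDomain Ideal Finset

namespace Pool.Agent.Work.MP_03df5c_h91

open Pool.Agent.Work.MP_6dc561_nt (qs primeSum primeSum_asymp primeSum_atTop summable_qs qs_pos
  two_le_norm)

/-- `∑_{n ∈ P} n^{-s}` -/
noncomputable def ps (P : Set ℕ) (s : ℝ) : ℝ := ∑' n : ℕ, P.indicator (fun n => (n : ℝ) ^ (-s)) n

lemma ps_term_nonneg (P : Set ℕ) (s : ℝ) (n : ℕ) :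
    0 ≤ P.indicator (fun n => (n : ℝ) ^ (-s)) n :=
  Set.indicator_nonneg (fun n _ => by positivity) n

lemma summable_ps (P : Set ℕ) {s : ℝ} (hs : 1 < s) :
    Summable (P.indicator (fun n : ℕ => (n : ℝ) ^ (-s))) :=
  (Real.summable_nat_rpow.2 (by linarith)).indicator P

lemma ps_le_of_finite {P Q : Set ℕ} (hQ : (P \ Q).Finite) : ∃ C : ℝ, ∀ s : ℝ, 1 < s →
    ps P s ≤ ps Q s + C := by
  refine ⟨hQ.toFinset.card, fun s hs => ?_⟩
  unfold ps
  have hfin : Summable (fun n : ℕ => (P \ Q).indicator (fun _ => (1 : ℝ)) n) := by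
    apply summable_of_hasFiniteSupport
    exact hQ.subset (fun n hn => by
      by_contra h
      exact hn (Set.indicator_of_notMem h _))
  have h1 : ∑' n : ℕ, (P \ Q).indicator (fun _ => (1 : ℝ)) n = hQ.toFinset.card := by
    rw [tsum_eq_sum (s := hQ.toFinset) (fun n hn => by
      rw [Set.indicator_of_notMem]
      simpa using hn)]
    rw [Finset.card_eq_sum_ones]
    push_cast
    refine sum_congr rfl fun n hn => ?_
    rw [Set.indicator_of_mem]
    simpa using hn
  rw [← h1, ← (summable_ps Q hs).tsum_add hfin]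
  refine Summable.tsum_le_tsum (fun n => ?_) (summable_ps P hs) ((summable_ps Q hs).add hfin)
  by_cases hP : n ∈ P
  · by_cases hQn : n ∈ Q
    · rw [Set.indicator_of_mem hP, Set.indicator_of_mem hQn]
      have : 0 ≤ (P \ Q).indicator (fun _ => (1 : ℝ)) n :=
        Set.indicator_nonneg (fun _ _ => zero_le_one) n
      linarith
    · rw [Set.indicator_of_mem hP, Set.indicator_of_notMem hQn,
        Set.indicator_of_mem (show n ∈ P \ Q from ⟨hP, hQn⟩), zero_add]
      rcases Nat.eq_zero_or_pos n with rfl | hn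
      · rw [Nat.cast_zero, Real.zero_rpow (by linarith)]; exact zero_le_one
      · exact Real.rpow_le_one_of_one_le_of_nonpos (by exact_mod_cast hn) (by linarith)
  · rw [Set.indicator_of_notMem hP]
    have h2 := ps_term_nonneg Q s n
    have h3 : 0 ≤ (P \ Q).indicator (fun _ => (1 : ℝ)) n :=
      Set.indicator_nonneg (fun _ _ => zero_le_one) n
    linarith

section

variable {K : Type*} [Field K] [NumberField K]

/-- the prime ideal given by a homomorphism to `ZMod p` -/
noncomputable def primeOf {p : ℕ} [hp : Fact p.Prime] (π : 𝓞 K →+* ZMod p) :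
    HeightOneSpectrum (𝓞 K) where
  asIdeal := RingHom.ker π
  isPrime := RingHom.ker_isPrime π
  ne_bot := by
    intro h
    have h1 : ((p : ℕ) : 𝓞 K) ∈ RingHom.ker π := by
      rw [RingHom.mem_ker, map_natCast]
      exact ZMod.natCast_self p
    rw [h, Ideal.mem_bot] at h1
    exact hp.out.ne_zero (by exact_mod_cast h1)

lemma surj_zmod {p : ℕ} [hp : Fact p.Prime] (π : 𝓞 K →+* ZMod p) : Function.Surjective π := by
  intro a
  refine ⟨((a.val : ℕ) : 𝓞 K), ?_⟩
  rw [map_natCast, ZMod.natCast_zmod_val]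

lemma absNorm_primeOf {p : ℕ} [hp : Fact p.Prime] (π : 𝓞 K →+* ZMod p) :
    absNorm (primeOf π).asIdeal = p := by
  rw [Ideal.absNorm_apply, Submodule.cardQuot_apply]
  have e := RingHom.quotientKerEquivOfSurjective (surj_zmod π)
  have h := Nat.card_congr e.toEquiv
  rw [Nat.card_zmod] at h
  exact h

lemma primeOf_injective {p : ℕ} [hp : Fact p.Prime] {π π' : 𝓞 K →+* ZMod p}
    (h : primeOf π = primeOf π') : π = π' := by
  have hker : RingHom.ker π = RingHom.ker π' := congrArg HeightOneSpectrum.asIdeal h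
  ext x
  have h1 : x - (((π x).val : ℕ) : 𝓞 K) ∈ RingHom.ker π := by
    rw [RingHom.mem_ker, map_sub, map_natCast, ZMod.natCast_zmod_val, sub_self]
  rw [hker, RingHom.mem_ker, map_sub, map_natCast, ZMod.natCast_zmod_val, sub_eq_zero] at h1
  exact h1.symm

/-- a homomorphism from a prime of prime norm -/
lemma exists_hom_of_card {p : ℕ} [hp : Fact p.Prime] (w : HeightOneSpectrum (𝓞 K))
    (h : absNorm w.asIdeal = p) : Nonempty (𝓞 K →+* ZMod p) := by
  rw [Ideal.absNorm_apply, Submodule.cardQuot_apply] at h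
  have := w.isPrime
  have e : ZMod p ≃+* (𝓞 K ⧸ w.asIdeal) := by
    haveI : Finite (𝓞 K ⧸ w.asIdeal) := Nat.finite_of_card_ne_zero (by
      rw [h]; exact hp.out.ne_zero)
    have := Fintype.ofFinite (𝓞 K ⧸ w.asIdeal)
    exact ZMod.ringEquivOfPrime _ hp.out (by rw [← Nat.card_eq_fintype_card]; exact h)
  exact ⟨e.symm.toRingHom.comp (Ideal.Quotient.mk w.asIdeal)⟩

/-- there is a homomorphism from the integers of `K` to `ZMod p` -/
def HasHom (K : Type*) [Field K] (p : ℕ) : Prop :=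
  ∃ _ : Fact p.Prime, Nonempty (𝓞 K →+* ZMod p)

lemma exists_prime_under (w : HeightOneSpectrum (𝓞 K)) :
    ∃ p : ℕ, p.Prime ∧ ((p : ℕ) : 𝓞 K) ∈ w.asIdeal ∧ ∃ f : ℕ, 1 ≤ f ∧
      absNorm w.asIdeal = p ^ f := by
  have hmax := w.isMaximal
  have hcard : Nat.card (𝓞 K ⧸ w.asIdeal) = absNorm w.asIdeal := by
    rw [Ideal.absNorm_apply, Submodule.cardQuot_apply]
  haveI : Finite (𝓞 K ⧸ w.asIdeal) := Nat.finite_of_card_ne_zero (by
    rw [hcard]; have := two_le_norm w; omega)
  have := Fintype.ofFinite (𝓞 K ⧸ w.asIdeal)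
  letI := Ideal.Quotient.field w.asIdeal
  obtain ⟨p, hchar, n, hp, hn⟩ := FiniteField.card' (𝓞 K ⧸ w.asIdeal)
  have hN : absNorm w.asIdeal = p ^ (n : ℕ) := by
    rw [← hcard, Nat.card_eq_fintype_card, hn]
  refine ⟨p, hp, ?_, n, n.pos, hN⟩
  have h1 := Ideal.absNorm_mem w.asIdeal
  rw [hN, Nat.cast_pow] at h1
  exact w.isPrime.mem_of_pow_mem _ h1

lemma prime_under_unique {w : HeightOneSpectrum (𝓞 K)} {p q : ℕ} (hp : p.Prime) (hq : q.Prime)
    (h1 : ((p : ℕ) : 𝓞 K) ∈ w.asIdeal) (h2 : ((q : ℕ) : 𝓞 K) ∈ w.asIdeal) : p = q := by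
  by_contra hne
  have hcop : Nat.Coprime p q := (Nat.coprime_primes hp hq).2 hne
  have h3 : IsCoprime (p : ℤ) (q : ℤ) := Nat.isCoprime_iff_coprime.2 hcop
  obtain ⟨a, b, hab⟩ := h3
  apply w.isPrime.ne_top
  rw [Ideal.eq_top_iff_one]
  have h4 : ((a * p + b * q : ℤ) : 𝓞 K) = 1 := by rw [hab]; simp
  push_cast at h4
  rw [← h4]
  exact Ideal.add_mem _ (Ideal.mul_mem_left _ _ h1) (Ideal.mul_mem_left _ _ h2)

lemma card_over_le (p : ℕ) (hp : p.Prime) (T : Finset (HeightOneSpectrum (𝓞 K)))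
    (hT : ∀ w ∈ T, ((p : ℕ) : 𝓞 K) ∈ w.asIdeal) : T.card ≤ Module.finrank ℚ K := by
  classical
  have hdvd : ∏ I ∈ T.image (fun w => w.asIdeal), I ∣ Ideal.span {((p : ℕ) : 𝓞 K)} := by
    apply Finset.prod_primes_dvd
    · intro I hI
      obtain ⟨w, _, rfl⟩ := Finset.mem_image.1 hI
      exact w.prime
    · intro I hI
      obtain ⟨w, hw, rfl⟩ := Finset.mem_image.1 hI
      rw [Ideal.dvd_span_singleton]
      exact hT w hw
  rw [Finset.prod_image (fun a _ b _ h => HeightOneSpectrum.ext h)] at hdvd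
  have h1 := Ideal.absNorm_dvd_absNorm_of_le (Ideal.le_of_dvd hdvd)
  rw [map_prod, Ideal.absNorm_span_singleton] at h1
  have h2 : (Algebra.norm ℤ (((p : ℕ) : 𝓞 K))).natAbs = p ^ Module.finrank ℚ K := by
    have : (((p : ℕ) : 𝓞 K)) = algebraMap ℤ (𝓞 K) (p : ℤ) := by simp
    rw [this, Algebra.norm_algebraMap, RingOfIntegers.rank, Int.natAbs_pow, Int.natAbs_natCast]
  rw [h2] at h1
  have h3 := Nat.le_of_dvd (pow_pos hp.pos _) h1
  have h4 : p ^ T.card ≤ ∏ w ∈ T, absNorm w.asIdeal := by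
    rw [← Finset.prod_const]
    refine Finset.prod_le_prod' fun w hw => ?_
    obtain ⟨q, hq, hqw, f, hf, hN⟩ := exists_prime_under w
    have hpq : p = q := prime_under_unique hp hq (hT w hw) hqw
    rw [hN, ← hpq]
    exact Nat.le_self_pow (by omega) p
  exact (Nat.pow_le_pow_iff_right hp.one_lt).1 (h4.trans h3)

lemma ps_nonneg (P : Set ℕ) (s : ℝ) : 0 ≤ ps P s := tsum_nonneg (ps_term_nonneg P s)

theorem primeSum_le_ps {s : ℝ} (hs : 1 < s) :
    primeSum K s ≤ Module.finrank ℚ K * (ps {p | HasHom K p} s + ps Set.univ 2) := by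
  classical
  unfold primeSum
  choose pw hpw1 hpw2 f hf hN using fun w : HeightOneSpectrum (𝓞 K) => exists_prime_under w
  set g : ℕ → ℝ := fun p => {p | HasHom K p}.indicator (fun n : ℕ => (n : ℝ) ^ (-s)) p
    + (Set.univ : Set ℕ).indicator (fun n : ℕ => (n : ℝ) ^ (-(2 : ℝ))) p with hg
  have hg0 : ∀ p, 0 ≤ g p := fun p => add_nonneg (ps_term_nonneg _ _ _) (ps_term_nonneg _ _ _)
  have hterm : ∀ w, qs K s w ≤ g (pw w) := by
    intro w
    have hp1 : (1 : ℝ) < pw w := by exact_mod_cast (hpw1 w).one_lt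
    have hp0 : (0 : ℝ) < pw w := by linarith
    rcases Nat.lt_or_ge 1 (f w) with hf2 | hf1
    · have h1 : qs K s w ≤ (pw w : ℝ) ^ (-(2 : ℝ)) := by
        unfold qs
        rw [hN w, Nat.cast_pow, ← Real.rpow_natCast, ← Real.rpow_mul hp0.le]
        apply Real.rpow_le_rpow_of_exponent_le hp1.le
        have h2 : (2 : ℝ) ≤ f w := by exact_mod_cast hf2
        nlinarith
      rw [hg]
      simp only [Set.indicator_univ]
      have := ps_term_nonneg {p | HasHom K p} s (pw w)
      linarith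
    · have hf' : f w = 1 := le_antisymm hf1 (hf w)
      have hNw : absNorm w.asIdeal = pw w := by rw [hN w, hf', pow_one]
      haveI : Fact (pw w).Prime := ⟨hpw1 w⟩
      have hh : HasHom K (pw w) := ⟨⟨hpw1 w⟩, exists_hom_of_card w hNw⟩
      rw [hg]
      simp only
      rw [Set.indicator_of_mem (show pw w ∈ {p | HasHom K p} from hh)]
      have := ps_term_nonneg (Set.univ : Set ℕ) 2 (pw w)
      unfold qs
      rw [hNw]
      linarith
  refine (summable_qs hs).tsum_le_of_sum_le fun T => ?_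
  calc ∑ w ∈ T, qs K s w ≤ ∑ w ∈ T, g (pw w) := Finset.sum_le_sum fun w _ => hterm w
    _ = ∑ b ∈ T.image pw, (T.filter (fun a => pw a = b)).card • g b := Finset.sum_comp g pw
    _ ≤ ∑ b ∈ T.image pw, (Module.finrank ℚ K : ℝ) * g b := by
        refine Finset.sum_le_sum fun b hb => ?_
        rw [nsmul_eq_mul]
        refine mul_le_mul_of_nonneg_right ?_ (hg0 b)
        obtain ⟨w0, _, rfl⟩ := Finset.mem_image.1 hb
        exact_mod_cast card_over_le (pw w0) (hpw1 w0) _ (fun w hw => by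
          rw [← (Finset.mem_filter.1 hw).2]; exact hpw2 w)
    _ = Module.finrank ℚ K * (∑ b ∈ T.image pw,
          {p | HasHom K p}.indicator (fun n : ℕ => (n : ℝ) ^ (-s)) b
        + ∑ b ∈ T.image pw, (Set.univ : Set ℕ).indicator (fun n : ℕ => (n : ℝ) ^ (-(2 : ℝ))) b) := by
        rw [← Finset.mul_sum, hg, Finset.sum_add_distrib]
    _ ≤ Module.finrank ℚ K * (ps {p | HasHom K p} s + ps Set.univ 2) := by
        refine mul_le_mul_of_nonneg_left (add_le_add ?_ ?_) (Nat.cast_nonneg _)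
        · exact (summable_ps _ hs).sum_le_tsum _ (fun n _ => ps_term_nonneg _ _ n)
        · exact (summable_ps _ (by norm_num)).sum_le_tsum _ (fun n _ => ps_term_nonneg _ _ n)

theorem ps_add_ps_le {s : ℝ} (hs : 1 < s) {P Q : Set ℕ} (hP : ∀ p ∈ P, HasHom K p)
    (hQ : ∀ p ∈ Q, p ∈ P ∧ ∃ _ : Fact p.Prime, ∃ π π' : 𝓞 K →+* ZMod p, π ≠ π') :
    ps P s + ps Q s ≤ primeSum K s := by
  classical
  -- the primes of norm `p`
  have hw1 : ∀ p : ℕ, ∃ w : HeightOneSpectrum (𝓞 K), p ∈ P → absNorm w.asIdeal = p := by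
    intro p
    by_cases hp : p ∈ P
    · obtain ⟨hp', ⟨π⟩⟩ := hP p hp
      exact ⟨primeOf π, fun _ => absNorm_primeOf π⟩
    · by_cases hne : Nonempty (HeightOneSpectrum (𝓞 K))
      · exact ⟨hne.some, fun h => absurd h hp⟩
      · exfalso
        -- there are primes: use any homomorphism; otherwise the sum is empty
        have h1 := primeSum_atTop K
        have h2 : primeSum K = fun _ => 0 := by
          funext s
          unfold primeSum
          haveI : IsEmpty (HeightOneSpectrum (𝓞 K)) := not_nonempty_iff.1 hne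
          exact tsum_empty
        rw [h2] at h1
        exact not_tendsto_const_atTop 0 (𝓝[>] (1 : ℝ)) h1
  choose w1 hw1 using hw1
  have hw2 : ∀ p : ℕ, ∃ w : HeightOneSpectrum (𝓞 K), p ∈ Q → absNorm w.asIdeal = p ∧ w ≠ w1 p := by
    intro p
    by_cases hp : p ∈ Q
    · obtain ⟨_, hp', π, π', hne⟩ := hQ p hp
      by_cases h : primeOf π = w1 p
      · refine ⟨primeOf π', fun _ => ⟨absNorm_primeOf π', fun h' => hne ?_⟩⟩
        exact primeOf_injective (h.trans h'.symm)
      · exact ⟨primeOf π, fun _ => ⟨absNorm_primeOf π, h⟩⟩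
    · exact ⟨w1 p, fun h => absurd h hp⟩
  choose w2 hw2 using hw2
  unfold ps
  rw [← (summable_ps P hs).tsum_add (summable_ps Q hs)]
  refine ((summable_ps P hs).add (summable_ps Q hs)).tsum_le_of_sum_le fun F => ?_
  rw [Finset.sum_add_distrib]
  have hi1 : Set.InjOn w1 (F.filter (· ∈ P) : Finset ℕ) := by
    intro a ha b hb hab
    have ha' := (Finset.mem_filter.1 (Finset.mem_coe.1 ha)).2
    have hb' := (Finset.mem_filter.1 (Finset.mem_coe.1 hb)).2
    rw [← hw1 a ha', ← hw1 b hb', hab]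
  have hi2 : Set.InjOn w2 (F.filter (· ∈ Q) : Finset ℕ) := by
    intro a ha b hb hab
    have ha' := (Finset.mem_filter.1 (Finset.mem_coe.1 ha)).2
    have hb' := (Finset.mem_filter.1 (Finset.mem_coe.1 hb)).2
    rw [← (hw2 a ha').1, ← (hw2 b hb').1, hab]
  have hdisj : Disjoint ((F.filter (· ∈ P)).image w1) ((F.filter (· ∈ Q)).image w2) := by
    rw [Finset.disjoint_left]
    intro w h1 h2
    obtain ⟨a, ha, rfl⟩ := Finset.mem_image.1 h1
    obtain ⟨b, hb, hab⟩ := Finset.mem_image.1 h2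
    have ha' := (Finset.mem_filter.1 ha).2
    have hb' := (Finset.mem_filter.1 hb).2
    have h3 : a = b := by
      rw [← hw1 a ha', ← (hw2 b hb').1, hab]
    rw [← h3] at hab hb'
    exact (hw2 a hb').2 hab
  have h1 : ∑ n ∈ F, P.indicator (fun n : ℕ => (n : ℝ) ^ (-s)) n
      = ∑ w ∈ (F.filter (· ∈ P)).image w1, qs K s w := by
    rw [Finset.sum_image (fun a ha b hb h => hi1 ha hb h), Finset.sum_filter]
    refine Finset.sum_congr rfl fun n _ => ?_
    by_cases hn : n ∈ P
    · rw [Set.indicator_of_mem hn, if_pos hn]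
      unfold qs
      rw [hw1 n hn]
    · rw [Set.indicator_of_notMem hn, if_neg hn]
  have h2 : ∑ n ∈ F, Q.indicator (fun n : ℕ => (n : ℝ) ^ (-s)) n
      = ∑ w ∈ (F.filter (· ∈ Q)).image w2, qs K s w := by
    rw [Finset.sum_image (fun a ha b hb h => hi2 ha hb h), Finset.sum_filter]
    refine Finset.sum_congr rfl fun n _ => ?_
    by_cases hn : n ∈ Q
    · rw [Set.indicator_of_mem hn, if_pos hn]
      unfold qs
      rw [(hw2 n hn).1]
    · rw [Set.indicator_of_notMem hn, if_neg hn]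
  rw [h1, h2, ← Finset.sum_union hdisj]
  exact (summable_qs hs).sum_le_tsum _ (fun w _ => (qs_pos s w).le)

end

end Pool.Agent.Work.MP_03df5c_h91
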