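import Pool.Agent.Work.MP_03df5c_h91.Field

/-!
# Algebraic elements of an algebra with homomorphisms to almost all `ℚ_p`
-/

open Filter Topology NumberField IsDedekindDomain Ideal Finset

namespace Pool.Agent.Work.MP_03df5c_h91

open Pool.Agent.Work.MP_6dc561_nt (qs primeSum primeSum_asymp primeSum_atTop summable_qs qs_pos
  two_le_norm)

/-- A number field whose ring of integers has homomorphisms to `ZMod p` for all but finitely many
primes `p` is `ℚ`. -/
theorem finrank_eq_one_of_hasHom (K : Type*) [Field K] [NumberField K]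
    (h : {p : ℕ | p.Prime ∧ ¬ HasHom K p}.Finite) : Module.finrank ℚ K = 1 := by
  classical
  by_contra hne
  have hpos : 0 < Module.finrank ℚ K := Module.finrank_pos
  have h2 : 1 < Module.finrank ℚ K := by omega
  -- two embeddings
  have hcard := AlgHom.card ℚ K (AlgebraicClosure ℚ)
  obtain ⟨τ1, τ2, hτ⟩ : ∃ a b : K →ₐ[ℚ] AlgebraicClosure ℚ, a ≠ b :=
    Fintype.one_lt_card_iff.1 (by rw [hcard]; exact h2)
  have hfd1 : FiniteDimensional ℚ τ1.fieldRange :=
    (AlgEquiv.ofInjectiveField τ1).toLinearEquiv.finiteDimensional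
  have hfd2 : FiniteDimensional ℚ τ2.fieldRange :=
    (AlgEquiv.ofInjectiveField τ2).toLinearEquiv.finiteDimensional
  set L : IntermediateField ℚ (AlgebraicClosure ℚ) := τ1.fieldRange ⊔ τ2.fieldRange with hL
  have hfdL : FiniteDimensional ℚ L := IntermediateField.finiteDimensional_sup _ _
  have hnfL : NumberField L := { to_charZero := inferInstance, to_finiteDimensional := hfdL }
  have hm1 : ∀ x, τ1 x ∈ L.toSubalgebra := fun x =>
    (le_sup_left : τ1.fieldRange ≤ L) ⟨x, rfl⟩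
  have hm2 : ∀ x, τ2 x ∈ L.toSubalgebra := fun x =>
    (le_sup_right : τ2.fieldRange ≤ L) ⟨x, rfl⟩
  set t1 : K →+* L := (τ1.codRestrict L.toSubalgebra hm1 : K →+* L.toSubalgebra) with ht1
  set t2 : K →+* L := (τ2.codRestrict L.toSubalgebra hm2 : K →+* L.toSubalgebra) with ht2
  have ht : t1 ≠ t2 := by
    intro h'
    apply hτ
    ext x
    have := congrArg (fun φ : K →+* L => ((φ x : L) : AlgebraicClosure ℚ)) h'
    exact this
  obtain ⟨θ, hθ⟩ : ∃ θ : 𝓞 K, t1 (θ : K) ≠ t2 (θ : K) := by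
    by_contra hcon
    push Not at hcon
    apply ht
    apply IsLocalization.ringHom_ext (nonZeroDivisors (𝓞 K))
    ext x
    exact congrArg _ (hcon x)
  set θ1 : 𝓞 L := RingOfIntegers.mapRingHom t1 θ with hθ1
  set θ2 : 𝓞 L := RingOfIntegers.mapRingHom t2 θ with hθ2
  have hδ : θ1 - θ2 ≠ 0 := by
    intro h'
    apply hθ
    have h3 : θ1 = θ2 := sub_eq_zero.1 h'
    have h4 : (θ1 : L) = (θ2 : L) := by rw [h3]
    exact h4
  set M : ℕ := absNorm (Ideal.span {θ1 - θ2}) with hM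
  have hM0 : M ≠ 0 := by
    rw [hM, Ne, Ideal.absNorm_eq_zero_iff, Ideal.span_singleton_eq_bot]
    exact hδ
  set P : Set ℕ := {p | HasHom K p} with hPdef
  set Q : Set ℕ := {p | HasHom L p ∧ ¬ p ∣ M} with hQdef
  have hQ : ∀ p ∈ Q, p ∈ P ∧ ∃ _ : Fact p.Prime, ∃ π π' : 𝓞 K →+* ZMod p, π ≠ π' := by
    rintro p ⟨⟨hp, ⟨π⟩⟩, hpM⟩
    refine ⟨⟨hp, ⟨π.comp (RingOfIntegers.mapRingHom t1)⟩⟩, hp,
      π.comp (RingOfIntegers.mapRingHom t1), π.comp (RingOfIntegers.mapRingHom t2), ?_⟩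
    intro heq
    apply hpM
    have h3 : π θ1 = π θ2 := congrArg (fun φ : 𝓞 K →+* ZMod p => φ θ) heq
    have h4 : π (θ1 - θ2) = 0 := by rw [map_sub, h3, sub_self]
    have h5 : ((M : ℕ) : 𝓞 L) ∈ Ideal.span {θ1 - θ2} := Ideal.absNorm_mem _
    obtain ⟨c, hc⟩ := Ideal.mem_span_singleton.1 h5
    have h6 : π ((M : ℕ) : 𝓞 L) = 0 := by rw [hc, map_mul, h4, zero_mul]
    rw [map_natCast] at h6
    exact (ZMod.natCast_eq_zero_iff _ _).1 h6
  -- the asymptotics
  obtain ⟨C1, hC1⟩ := primeSum_asymp K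
  obtain ⟨C0, hC0⟩ := primeSum_asymp ℚ
  obtain ⟨C2, hC2⟩ := ps_le_of_finite (P := {p | HasHom ℚ p}) (Q := P) (h.subset (by
    rintro p ⟨⟨hp, -⟩, hnp⟩
    exact ⟨hp.out, hnp⟩))
  obtain ⟨C4, hC4⟩ := ps_le_of_finite (P := {p | HasHom L p}) (Q := Q)
    ((Set.finite_Iic M).subset (by
    rintro p ⟨hp, hnp⟩
    have : p ∣ M := by
      by_contra hd
      exact hnp ⟨hp, hd⟩
    exact Nat.le_of_dvd (Nat.pos_of_ne_zero hM0) this))
  have hbound : ∀ᶠ s : ℝ in 𝓝[>] 1, primeSum L s ≤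
      Module.finrank ℚ L * ((C1 + C0 + C2 + ps Set.univ 2) + C4 + ps Set.univ 2) := by
    filter_upwards [hC1, hC0, eventually_mem_nhdsWithin] with s h1 h0 hs
    have hs1 : (1 : ℝ) < s := hs
    have a1 := ps_add_ps_le (K := K) hs1 (P := P) (Q := Q) (fun p hp => hp) hQ
    have a2 := primeSum_le_ps (K := ℚ) hs1
    have a3 := hC2 s hs1
    have a4 := hC4 s hs1
    have a5 := primeSum_le_ps (K := L) hs1
    rw [abs_le] at h1 h0
    rw [Module.finrank_self, Nat.cast_one, one_mul] at a2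
    have a6 : ps Q s ≤ C1 + C0 + C2 + ps Set.univ 2 := by linarith [h1.2, h0.1]
    refine a5.trans (mul_le_mul_of_nonneg_left ?_ (Nat.cast_nonneg _))
    linarith
  have htop := primeSum_atTop L
  have hev := htop.eventually_gt_atTop
    (Module.finrank ℚ L * ((C1 + C0 + C2 + ps Set.univ 2) + C4 + ps Set.univ 2))
  obtain ⟨s, hs1, hs2⟩ := (hbound.and hev).exists
  linarith

/-- a root in `ℚ_p` gives a homomorphism to `ZMod p` -/
lemma hasHom_of_hom {K : Type*} [Field K] [NumberField K] {p : ℕ} [hp : Fact p.Prime]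
    (σ : K →+* ℚ_[p]) : HasHom K p := by
  have hint : ∀ x : 𝓞 K, ‖σ (x : K)‖ ≤ 1 := by
    intro x
    have h1 : IsIntegral ℤ (σ (x : K)) := by
      have := (RingOfIntegers.isIntegral_coe x)
      exact this.map σ.toIntAlgHom
    have h2 : IsIntegral ℤ_[p] (σ (x : K)) := h1.tower_top
    obtain ⟨y, hy⟩ := (IsIntegrallyClosed.isIntegral_iff (R := ℤ_[p]) (K := ℚ_[p])).1 h2
    rw [← hy]
    exact y.2
  let ρ : 𝓞 K →+* ℤ_[p] :=
    { toFun := fun x => ⟨σ (x : K), hint x⟩
      map_one' := Subtype.ext (map_one σ)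
      map_mul' := fun x y => Subtype.ext (map_mul σ (x : K) (y : K))
      map_zero' := Subtype.ext (map_zero σ)
      map_add' := fun x y => Subtype.ext (map_add σ (x : K) (y : K)) }
  exact ⟨hp, ⟨(PadicInt.toZMod (p := p)).comp ρ⟩⟩

theorem algebraic_rational {ι : Type*} (x : ι → ℝ) (z : (p : ℕ) → [Fact p.Prime] → ι → ℚ_[p])
    (h : {p : ℕ | p.Prime ∧ ¬ ∃ _ : Fact p.Prime, ∀ f : MvPolynomial ι ℚ,
      MvPolynomial.aeval x f = 0 → MvPolynomial.aeval (z p) f = 0}.Finite)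
    (F : MvPolynomial ι ℚ) (hF : IsAlgebraic ℚ (MvPolynomial.aeval x F)) :
    ∃ q : ℚ, MvPolynomial.aeval x F = (q : ℝ) := by
  set α : ℝ := MvPolynomial.aeval x F with hα
  have hint : IsIntegral ℚ α := hF.isIntegral
  set K : IntermediateField ℚ ℝ := IntermediateField.adjoin ℚ {α} with hK
  have hfd : FiniteDimensional ℚ K := IntermediateField.adjoin.finiteDimensional hint
  have hnf : NumberField K := { to_charZero := inferInstance, to_finiteDimensional := hfd }
  have h1 : Module.finrank ℚ K = 1 := by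
    apply finrank_eq_one_of_hasHom
    refine h.subset ?_
    rintro p ⟨hp, hno⟩
    refine ⟨hp, ?_⟩
    rintro ⟨hpf, hT⟩
    apply hno
    set f : MvPolynomial ι ℚ := Polynomial.aeval F (minpoly ℚ α) with hf
    have h2 : MvPolynomial.aeval x f = 0 := by
      rw [hf, ← Polynomial.aeval_algHom_apply, ← hα, minpoly.aeval]
    have h3 := hT f h2
    rw [hf, ← Polynomial.aeval_algHom_apply] at h3
    let σ : K →ₐ[ℚ] ℚ_[p] := (IntermediateField.adjoin.powerBasis hint).lift
      (MvPolynomial.aeval (z p) F) (by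
        rw [IntermediateField.adjoin.powerBasis_gen, IntermediateField.minpoly_gen]
        exact h3)
    exact hasHom_of_hom σ.toRingHom
  have h2 : α ∈ (⊥ : IntermediateField ℚ ℝ) :=
    IntermediateField.finrank_adjoin_simple_eq_one_iff.1 h1
  rw [IntermediateField.mem_bot] at h2
  obtain ⟨q, hq⟩ := h2
  exact ⟨q, by rw [← hq]; simp⟩

end Pool.Agent.Work.MP_03df5c_h91
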