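import Pool.Agent.Work.MP_03df5c_h91.Defs

open Filter Topology Finset

namespace Pool.Agent.Work.MP_03df5c_h91

variable (p : ℕ) [hp : Fact p.Prime]

/-- `∑_{1 ≤ a < p^N, p ∤ a} a^{-r}` in `ℚ_p`. -/
noncomputable def invPowSum (r N : ℕ) : ℚ_[p] :=
  ∑ a ∈ (range (p ^ N)).filter (fun a => ¬ p ∣ a), ((a : ℚ_[p]) ^ r)⁻¹

variable {p}

lemma norm_add_le_of_le {x y : ℚ_[p]} {C : ℝ} (hx : ‖x‖ ≤ C) (hy : ‖y‖ ≤ C) : ‖x + y‖ ≤ C :=
  (IsUltrametricDist.norm_add_le_max x y).trans (max_le hx hy)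

lemma norm_sub_le_of_le {x y : ℚ_[p]} {C : ℝ} (hx : ‖x‖ ≤ C) (hy : ‖y‖ ≤ C) : ‖x - y‖ ≤ C := by
  rw [sub_eq_add_neg]; exact norm_add_le_of_le hx (by rwa [norm_neg])

lemma norm_sum_le_of_le {ι : Type*} (s : Finset ι) (f : ι → ℚ_[p]) {C : ℝ} (hC : 0 ≤ C)
    (h : ∀ i ∈ s, ‖f i‖ ≤ C) : ‖∑ i ∈ s, f i‖ ≤ C := by
  classical
  induction s using Finset.induction_on with
  | empty => simpa using hC
  | insert a s ha ih =>
    rw [sum_insert ha]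
    exact norm_add_le_of_le (h a (mem_insert_self _ _))
      (ih fun i hi => h i (mem_insert_of_mem hi))

lemma norm_natCast_le_one (a : ℕ) : ‖(a : ℚ_[p])‖ ≤ 1 := by
  exact_mod_cast Padic.norm_int_le_one (p := p) (a : ℤ)

lemma norm_nat_eq_one {a : ℕ} (ha : ¬ p ∣ a) : ‖(a : ℚ_[p])‖ = 1 := by
  rw [Padic.norm_natCast_eq_one_iff]
  exact (Nat.Prime.coprime_iff_not_dvd hp.out).2 ha

lemma norm_pow_sub_pow_le {x y : ℚ_[p]} (hx : ‖x‖ ≤ 1) (hy : ‖y‖ ≤ 1) (r : ℕ) :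
    ‖x ^ r - y ^ r‖ ≤ ‖x - y‖ := by
  induction r with
  | zero => simp
  | succ r ih =>
    have : x ^ (r + 1) - y ^ (r + 1) = x ^ r * (x - y) + (x ^ r - y ^ r) * y := by ring
    rw [this]
    refine norm_add_le_of_le ?_ ?_
    · rw [norm_mul, norm_pow]
      exact mul_le_of_le_one_left (norm_nonneg _) (pow_le_one₀ (norm_nonneg _) hx)
    · rw [norm_mul]
      exact (mul_le_of_le_one_right (norm_nonneg _) hy).trans ih

lemma norm_inv_pow_sub_le {x y : ℚ_[p]} (hx : ‖x‖ = 1) (hy : ‖y‖ = 1) (r : ℕ) :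
    ‖(x ^ r)⁻¹ - (y ^ r)⁻¹‖ ≤ ‖x - y‖ := by
  have hx0 : x ≠ 0 := by rintro rfl; simp at hx
  have hy0 : y ≠ 0 := by rintro rfl; simp at hy
  have : (x ^ r)⁻¹ - (y ^ r)⁻¹ = (y ^ r - x ^ r) * ((x ^ r)⁻¹ * (y ^ r)⁻¹) := by
    field_simp
  rw [this, norm_mul, norm_mul, norm_inv, norm_inv, norm_pow, norm_pow, hx, hy]
  simp only [one_pow, inv_one, mul_one]
  rw [norm_sub_rev x y]
  exact norm_pow_sub_pow_le hy.le hx.le r

lemma norm_sub_mod (b N : ℕ) :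
    ‖(b : ℚ_[p]) - ((b % p ^ N : ℕ) : ℚ_[p])‖ ≤ (p : ℝ) ^ (-(N : ℤ)) := by
  have h : (b : ℚ_[p]) - ((b % p ^ N : ℕ) : ℚ_[p]) = (p : ℚ_[p]) ^ N * ((b / p ^ N : ℕ) : ℚ_[p]) := by
    have := Nat.mod_add_div b (p ^ N)
    have h2 : ((b % p ^ N + p ^ N * (b / p ^ N) : ℕ) : ℚ_[p]) = (b : ℚ_[p]) := by rw [this]
    rw [← h2]; push_cast; ring
  rw [h, norm_mul, Padic.norm_p_pow]
  exact mul_le_of_le_one_right (by positivity) (norm_natCast_le_one _)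

omit hp in
lemma not_dvd_mod {b N : ℕ} (hN : N ≠ 0) (hb : ¬ p ∣ b) : ¬ p ∣ b % p ^ N := by
  intro h
  apply hb
  have h1 : p ∣ p ^ N := dvd_pow_self p hN
  exact (Nat.dvd_mod_iff h1).1 h

/-- multiplication by `g` permutes the residues prime to `p` modulo `p ^ N`. -/
lemma invPowSum_perm {g : ℕ} (hg : ¬ p ∣ g) (r N : ℕ) :
    invPowSum p r N =
      ∑ a ∈ (range (p ^ N)).filter (fun a => ¬ p ∣ a), (((g * a % p ^ N : ℕ) : ℚ_[p]) ^ r)⁻¹ := by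
  rcases Nat.eq_zero_or_pos N with rfl | hN
  · simp [invPowSum, Finset.filter_singleton]
  unfold invPowSum
  symm
  have hpN : 0 < p ^ N := pow_pos hp.out.pos N
  have hinj : Set.InjOn (fun a => g * a % p ^ N)
      ((range (p ^ N)).filter (fun a => ¬ p ∣ a) : Finset ℕ) := by
    intro a ha b hb hab
    replace ha := Finset.mem_filter.1 (Finset.mem_coe.1 ha)
    replace hb := Finset.mem_filter.1 (Finset.mem_coe.1 hb)
    simp only [mem_range] at ha hb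
    have h1 : g * a ≡ g * b [MOD p ^ N] := hab
    have hcop : Nat.Coprime (p ^ N) g :=
      Nat.Coprime.pow_left N ((Nat.Prime.coprime_iff_not_dvd hp.out).2 hg)
    have h2 : a ≡ b [MOD p ^ N] := Nat.ModEq.cancel_left_of_coprime hcop h1
    exact Nat.ModEq.eq_of_lt_of_lt h2 ha.1 hb.1
  have hmaps : ∀ a ∈ (range (p ^ N)).filter (fun a => ¬ p ∣ a),
      g * a % p ^ N ∈ (range (p ^ N)).filter (fun a => ¬ p ∣ a) := by
    intro a ha
    simp only [mem_filter, mem_range] at ha ⊢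
    refine ⟨Nat.mod_lt _ hpN, not_dvd_mod hN.ne' ?_⟩
    exact hp.out.not_dvd_mul hg ha.2
  have himg : ((range (p ^ N)).filter (fun a => ¬ p ∣ a)).image (fun a => g * a % p ^ N)
      = (range (p ^ N)).filter (fun a => ¬ p ∣ a) := by
    apply Finset.eq_of_subset_of_card_le
    · intro x hx
      obtain ⟨a, ha, rfl⟩ := mem_image.1 hx
      exact hmaps a ha
    · rw [card_image_of_injOn hinj]
  conv_rhs => rw [← himg]
  rw [sum_image (fun a ha b hb h => hinj ha hb h)]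

lemma norm_mul_invPowSum_le {g : ℕ} (hg : ¬ p ∣ g) (r N : ℕ) :
    ‖((g : ℚ_[p]) ^ r)⁻¹ - 1‖ * ‖invPowSum p r N‖ ≤ (p : ℝ) ^ (-(N : ℤ)) := by
  rw [← norm_mul]
  rcases Nat.eq_zero_or_pos N with rfl | hN
  · simp [invPowSum, Finset.filter_singleton]
  have h1 : (((g : ℚ_[p]) ^ r)⁻¹ - 1) * invPowSum p r N =
      ∑ a ∈ (range (p ^ N)).filter (fun a => ¬ p ∣ a),
        (((((g * a : ℕ) : ℚ_[p])) ^ r)⁻¹ - (((g * a % p ^ N : ℕ) : ℚ_[p]) ^ r)⁻¹) := by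
    rw [sub_mul, one_mul, sum_sub_distrib, ← invPowSum_perm hg r N]
    congr 1
    unfold invPowSum
    rw [mul_sum]
    refine sum_congr rfl fun a _ => ?_
    push_cast
    rw [mul_pow, mul_inv]
  rw [h1]
  refine norm_sum_le_of_le _ _ (by positivity) ?_
  intro a ha
  simp only [mem_filter, mem_range] at ha
  have hga : ¬ p ∣ g * a := hp.out.not_dvd_mul hg ha.2
  refine (norm_inv_pow_sub_le (norm_nat_eq_one hga)
    (norm_nat_eq_one (not_dvd_mod hN.ne' hga)) r).trans ?_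
  exact norm_sub_mod _ _

/-- For `r ≥ 1` the sums `invPowSum r N` are `O(p^{-N})`. -/
lemma exists_norm_invPowSum_le (p : ℕ) [hp : Fact p.Prime] {r : ℕ} (hr : r ≠ 0) :
    ∃ C : ℝ, 0 < C ∧ ∀ N, ‖invPowSum p r N‖ ≤ C * (p : ℝ) ^ (-(N : ℤ)) := by
  have hg : ¬ p ∣ (p + 1) := by
    intro h
    have : p ∣ 1 := (Nat.dvd_add_right (dvd_refl p)).1 h
    exact hp.out.one_lt.ne' (Nat.dvd_one.1 this)
  have hne : (((p + 1 : ℕ) : ℚ_[p]) ^ r)⁻¹ - 1 ≠ 0 := by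
    intro h
    have h1 : (((p + 1 : ℕ) : ℚ_[p]) ^ r) = 1 := by
      rw [sub_eq_zero] at h
      exact inv_eq_one.1 h
    have h2 : (p + 1) ^ r = 1 := by exact_mod_cast h1
    have h3 : 1 < (p + 1) ^ r := Nat.one_lt_pow hr (by have := hp.out.pos; omega)
    omega
  refine ⟨‖(((p + 1 : ℕ) : ℚ_[p]) ^ r)⁻¹ - 1‖⁻¹, inv_pos.2 (norm_pos_iff.2 hne), fun N => ?_⟩
  rw [inv_mul_eq_div, le_div_iff₀ (norm_pos_iff.2 hne), mul_comm]
  exact norm_mul_invPowSum_le hg r N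

/-- For `0 < r < p - 1` the sum is divisible by `p^N`. -/
lemma norm_invPowSum_le_of_lt {r : ℕ} (hr : r ≠ 0) (hrp : r < p - 1) (N : ℕ) :
    ‖invPowSum p r N‖ ≤ (p : ℝ) ^ (-(N : ℤ)) := by
  obtain ⟨u, hu⟩ : ∃ u : (ZMod p)ˣ, u ^ r ≠ 1 := by
    apply exists_pow_ne_one_of_isCyclic hr
    rw [Nat.card_eq_fintype_card, ZMod.card_units_eq_totient, Nat.totient_prime hp.out]
    exact hrp
  set g : ℕ := (u : ZMod p).val with hgdef
  have hcast : ((g : ℕ) : ZMod p) = (u : ZMod p) := by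
    rw [hgdef, ZMod.natCast_zmod_val]
  have hg : ¬ p ∣ g := by
    intro h
    have : ((g : ℕ) : ZMod p) = 0 := (ZMod.natCast_eq_zero_iff _ _).2 h
    rw [hcast] at this
    exact u.ne_zero this
  have hgr : ¬ (p : ℤ) ∣ ((g : ℤ) ^ r - 1) := by
    intro h
    have h1 : (((g : ℤ) ^ r - 1 : ℤ) : ZMod p) = 0 := (ZMod.intCast_zmod_eq_zero_iff_dvd _ _).2 h
    push_cast at h1
    rw [hcast, sub_eq_zero] at h1
    apply hu
    ext
    simpa using h1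
  have hn : ‖((g : ℚ_[p]) ^ r)⁻¹ - 1‖ = 1 := by
    have hg1 : ‖(g : ℚ_[p])‖ = 1 := norm_nat_eq_one hg
    have hg0 : (g : ℚ_[p]) ≠ 0 := by rintro h; rw [h] at hg1; simp at hg1
    have e : ((g : ℚ_[p]) ^ r)⁻¹ - 1 = -(((g : ℤ) ^ r - 1 : ℤ) : ℚ_[p]) * ((g : ℚ_[p]) ^ r)⁻¹ := by
      push_cast
      field_simp
      ring
    rw [e, norm_mul, norm_neg, norm_inv, norm_pow, hg1]
    simp only [one_pow, inv_one, mul_one]
    rw [Padic.norm_intCast_eq_one_iff]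
    rw [isCoprime_comm]
    exact ((Nat.prime_iff_prime_int.1 hp.out).coprime_iff_not_dvd).2 hgr
  have := norm_mul_invPowSum_le hg r N
  rwa [hn, one_mul] at this

/-- second order expansion of `(x + y)^{-r}` -/
lemma norm_inv_expand_le {x y : ℚ_[p]} (hx : ‖x‖ = 1) (hxy : ‖x + y‖ = 1) (hy : ‖y‖ ≤ 1) (r : ℕ) :
    ‖((x + y) ^ r)⁻¹ - (x ^ r)⁻¹ + r * y * (x ^ (r + 1))⁻¹‖ ≤ ‖y‖ ^ 2 := by
  rcases Nat.eq_zero_or_pos r with rfl | hr
  · simp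
  have hx0 : x ≠ 0 := by rintro rfl; simp at hx
  have hxy0 : x + y ≠ 0 := by intro h; rw [h] at hxy; simp at hxy
  -- lift to `ℤ_p`
  obtain ⟨z, hz, hpow⟩ : ∃ z : ℚ_[p], ‖z‖ ≤ 1 ∧
      (x + y) ^ r = x ^ r + r * x ^ (r - 1) * y + z * y ^ 2 := by
    obtain ⟨x', hx'⟩ : ∃ x' : ℤ_[p], (x' : ℚ_[p]) = x := ⟨⟨x, hx.le⟩, rfl⟩
    obtain ⟨y', hy'⟩ : ∃ y' : ℤ_[p], (y' : ℚ_[p]) = y := ⟨⟨y, hy⟩, rfl⟩
    obtain ⟨z, hz⟩ := Polynomial.powAddExpansion x' y' r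
    refine ⟨(z : ℚ_[p]), PadicInt.norm_le_one z, ?_⟩
    have := congrArg (fun t : ℤ_[p] => (t : ℚ_[p])) hz
    push_cast at this
    rw [← hx', ← hy']
    exact this
  obtain ⟨s, rfl⟩ : ∃ s, r = s + 1 := ⟨r - 1, by omega⟩
  have hnum : ((x + y) ^ (s + 1))⁻¹ - (x ^ (s + 1))⁻¹ + ((s + 1 : ℕ) : ℚ_[p]) * y * (x ^ (s + 1 + 1))⁻¹
      = y ^ 2 * (-(x * z) + ((s + 1 : ℕ) : ℚ_[p]) ^ 2 * x ^ s + ((s + 1 : ℕ) : ℚ_[p]) * z * y)
        * ((x ^ (s + 1 + 1))⁻¹ * ((x + y) ^ (s + 1))⁻¹) := by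
    have hP : (x + y) ^ (s + 1) ≠ 0 := pow_ne_zero _ hxy0
    have hX : x ^ (s + 1 + 1) ≠ 0 := pow_ne_zero _ hx0
    have hX1 : x ^ (s + 1) ≠ 0 := pow_ne_zero _ hx0
    have key : x ^ (s + 1 + 1) - x * (x + y) ^ (s + 1) + ((s + 1 : ℕ) : ℚ_[p]) * y * (x + y) ^ (s + 1)
        = y ^ 2 * (-(x * z) + ((s + 1 : ℕ) : ℚ_[p]) ^ 2 * x ^ s
          + ((s + 1 : ℕ) : ℚ_[p]) * z * y) := by
      rw [hpow]
      simp only [Nat.add_sub_cancel]
      ring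
    rw [← key]
    have e1 : (x ^ (s + 1))⁻¹ = x * (x ^ (s + 1 + 1))⁻¹ := by
      rw [pow_succ x (s + 1), mul_inv]
      field_simp
    rw [e1]
    field_simp
  rw [hnum, norm_mul, norm_mul, norm_mul, norm_inv, norm_inv, norm_pow, norm_pow, norm_pow,
    hx, hxy]
  simp only [one_pow, inv_one, mul_one]
  refine mul_le_of_le_one_right (by positivity) ?_
  refine norm_add_le_of_le (norm_add_le_of_le ?_ ?_) ?_
  · rw [norm_neg, norm_mul, hx, one_mul]; exact hz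
  · rw [norm_mul, norm_pow, norm_pow, hx, one_pow, mul_one]
    exact pow_le_one₀ (norm_nonneg _) (norm_natCast_le_one _)
  · rw [norm_mul, norm_mul]
    exact mul_le_one₀ (mul_le_one₀ (norm_natCast_le_one _) (norm_nonneg _) hz) (norm_nonneg _) hy

/-- splitting the residues modulo `p^(N+1)` -/
lemma invPowSum_succ {N : ℕ} (hN : N ≠ 0) (r : ℕ) :
    invPowSum p r (N + 1) = ∑ b ∈ (range (p ^ N)).filter (fun a => ¬ p ∣ a),
      ∑ j ∈ range p, (((b : ℚ_[p]) + (j : ℚ_[p]) * (p : ℚ_[p]) ^ N) ^ r)⁻¹ := by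
  unfold invPowSum
  rw [← sum_product']
  symm
  have hpN : 0 < p ^ N := pow_pos hp.out.pos N
  have hdvd : p ∣ p ^ N := dvd_pow_self p hN
  refine sum_nbij' (fun x => x.1 + x.2 * p ^ N) (fun a => (a % p ^ N, a / p ^ N)) ?_ ?_ ?_ ?_ ?_
  · rintro ⟨b, j⟩ h
    simp only [mem_product, mem_filter, mem_range] at h ⊢
    refine ⟨?_, ?_⟩
    · have : j + 1 ≤ p := h.2
      calc b + j * p ^ N < p ^ N + j * p ^ N := by omega
        _ = (j + 1) * p ^ N := by ring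
        _ ≤ p * p ^ N := Nat.mul_le_mul_right _ this
        _ = p ^ (N + 1) := by ring
    · intro hd
      exact h.1.2 ((Nat.dvd_add_left (dvd_mul_of_dvd_right hdvd j)).1 hd)
  · intro a h
    simp only [mem_product, mem_filter, mem_range] at h ⊢
    refine ⟨⟨Nat.mod_lt _ hpN, not_dvd_mod hN h.2⟩, ?_⟩
    rw [Nat.div_lt_iff_lt_mul hpN]
    calc a < p ^ (N + 1) := h.1
      _ = p * p ^ N := by ring
  · rintro ⟨b, j⟩ h
    simp only [mem_product, mem_filter, mem_range] at h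
    simp only [Prod.mk.injEq]
    constructor
    · rw [Nat.add_mul_mod_self_right, Nat.mod_eq_of_lt h.1.1]
    · rw [Nat.add_mul_div_right _ _ hpN, Nat.div_eq_of_lt h.1.1, zero_add]
  · intro a _
    simp only
    rw [mul_comm]
    exact Nat.mod_add_div a (p ^ N)
  · rintro ⟨b, j⟩ _
    simp only
    push_cast
    rfl

/-- The approximating sums for the `p`-adic integral of `a^{1-k}` over the units:
`p^{-N} ∑_{1 ≤ a < p^N, p ∤ a} a^{1-k}`. -/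
noncomputable def klSum (p : ℕ) [Fact p.Prime] (k N : ℕ) : ℚ_[p] :=
  ((p : ℚ_[p]) ^ N)⁻¹ * invPowSum p (k - 1) N

lemma sum_range_natCast (p : ℕ) [Fact p.Prime] :
    ∑ j ∈ range p, (j : ℚ_[p]) = (p : ℚ_[p]) * (((p : ℚ_[p]) - 1) / 2) := by
  have h := Finset.sum_range_id_mul_two p
  have h1 : (((∑ i ∈ range p, i) * 2 : ℕ) : ℚ_[p]) = ((p * (p - 1) : ℕ) : ℚ_[p]) := by rw [h]
  have hp1 : 1 ≤ p := (Fact.out : p.Prime).one_lt.le
  push_cast [Nat.cast_sub hp1] at h1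
  have h2 : (2 : ℚ_[p]) ≠ 0 := two_ne_zero
  field_simp
  linear_combination h1

lemma invPowSum_succ_sub {N : ℕ} (hN : N ≠ 0) (r : ℕ) :
    ‖invPowSum p r (N + 1) - (p : ℚ_[p]) * invPowSum p r N
      + (r : ℚ_[p]) * (p : ℚ_[p]) ^ N * ((p : ℚ_[p]) * (((p : ℚ_[p]) - 1) / 2))
        * invPowSum p (r + 1) N‖ ≤ ((p : ℝ) ^ (-(N : ℤ))) ^ 2 := by
  have e : invPowSum p r (N + 1) - (p : ℚ_[p]) * invPowSum p r N
      + (r : ℚ_[p]) * (p : ℚ_[p]) ^ N * ((p : ℚ_[p]) * (((p : ℚ_[p]) - 1) / 2))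
        * invPowSum p (r + 1) N
      = ∑ b ∈ (range (p ^ N)).filter (fun a => ¬ p ∣ a), ∑ j ∈ range p,
        ((((b : ℚ_[p]) + (j : ℚ_[p]) * (p : ℚ_[p]) ^ N) ^ r)⁻¹ - ((b : ℚ_[p]) ^ r)⁻¹
          + r * ((j : ℚ_[p]) * (p : ℚ_[p]) ^ N) * ((b : ℚ_[p]) ^ (r + 1))⁻¹) := by
    rw [invPowSum_succ hN, ← sum_range_natCast p]
    unfold invPowSum
    rw [mul_sum, mul_sum, ← sum_sub_distrib, ← sum_add_distrib]
    refine sum_congr rfl fun b _ => ?_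
    rw [sum_add_distrib, sum_sub_distrib, sum_const, card_range, nsmul_eq_mul]
    congr 1
    rw [← sum_mul, ← mul_sum, ← sum_mul]
    ring
  rw [e]
  refine norm_sum_le_of_le _ _ (by positivity) fun b hb => ?_
  refine norm_sum_le_of_le _ _ (by positivity) fun j hj => ?_
  simp only [mem_filter, mem_range] at hb hj
  have hpN : 0 < p ^ N := pow_pos hp.out.pos N
  have hdvd : p ∣ p ^ N := dvd_pow_self p hN
  have hb1 : ‖(b : ℚ_[p])‖ = 1 := norm_nat_eq_one hb.2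
  have hb2 : ‖(b : ℚ_[p]) + (j : ℚ_[p]) * (p : ℚ_[p]) ^ N‖ = 1 := by
    have : ¬ p ∣ b + j * p ^ N := fun hd =>
      hb.2 ((Nat.dvd_add_left (dvd_mul_of_dvd_right hdvd j)).1 hd)
    have := norm_nat_eq_one (p := p) this
    push_cast at this
    exact this
  have hy : ‖(j : ℚ_[p]) * (p : ℚ_[p]) ^ N‖ ≤ (p : ℝ) ^ (-(N : ℤ)) := by
    rw [norm_mul, Padic.norm_p_pow]
    exact mul_le_of_le_one_left (by positivity) (norm_natCast_le_one _)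
  have hy1 : ‖(j : ℚ_[p]) * (p : ℚ_[p]) ^ N‖ ≤ 1 := by
    rw [norm_mul, ← Nat.cast_pow]
    exact mul_le_one₀ (norm_natCast_le_one _) (norm_nonneg _) (norm_natCast_le_one _)
  refine (norm_inv_expand_le hb1 hb2 hy1 r).trans ?_
  exact pow_le_pow_left₀ (norm_nonneg _) hy 2

lemma klSum_succ_sub {N : ℕ} (hN : N ≠ 0) {k : ℕ} (hk : k ≠ 0) :
    ‖klSum p k (N + 1) - klSum p k N
      + ((k - 1 : ℕ) : ℚ_[p]) * (((p : ℚ_[p]) - 1) / 2) * invPowSum p k N‖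
      ≤ (p : ℝ) ^ (1 - (N : ℤ)) := by
  obtain ⟨r, rfl⟩ : ∃ r, k = r + 1 := ⟨k - 1, by omega⟩
  simp only [klSum, Nat.add_sub_cancel]
  have hp0 : (p : ℚ_[p]) ≠ 0 := by exact_mod_cast hp.out.ne_zero
  have hpR : (p : ℝ) ≠ 0 := by exact_mod_cast hp.out.ne_zero
  have e : ((p : ℚ_[p]) ^ (N + 1))⁻¹ * invPowSum p r (N + 1)
      - ((p : ℚ_[p]) ^ N)⁻¹ * invPowSum p r N
      + (r : ℚ_[p]) * (((p : ℚ_[p]) - 1) / 2) * invPowSum p (r + 1) N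
      = ((p : ℚ_[p]) ^ (N + 1))⁻¹ * (invPowSum p r (N + 1) - (p : ℚ_[p]) * invPowSum p r N
      + (r : ℚ_[p]) * (p : ℚ_[p]) ^ N * ((p : ℚ_[p]) * (((p : ℚ_[p]) - 1) / 2))
        * invPowSum p (r + 1) N) := by
    have h1 : ((p : ℚ_[p]) ^ (N + 1))⁻¹ * (p : ℚ_[p]) = ((p : ℚ_[p]) ^ N)⁻¹ := by
      rw [pow_succ]; field_simp
    have h2 : ((p : ℚ_[p]) ^ (N + 1))⁻¹ * ((p : ℚ_[p]) ^ N * (p : ℚ_[p])) = 1 := by
      rw [← pow_succ]; exact inv_mul_cancel₀ (pow_ne_zero _ hp0)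
    rw [← h1]
    linear_combination (-(r : ℚ_[p]) * (((p : ℚ_[p]) - 1) / 2) * invPowSum p (r + 1) N) * h2
  rw [e, norm_mul, norm_inv, Padic.norm_p_pow]
  have hb := invPowSum_succ_sub (p := p) hN r
  calc ((p : ℝ) ^ (-((N + 1 : ℕ) : ℤ)))⁻¹ * _
      ≤ ((p : ℝ) ^ (-((N + 1 : ℕ) : ℤ)))⁻¹ * ((p : ℝ) ^ (-(N : ℤ))) ^ 2 :=
        mul_le_mul_of_nonneg_left hb (by positivity)
    _ = (p : ℝ) ^ (1 - (N : ℤ)) := by
        rw [← zpow_neg, ← zpow_natCast, ← zpow_mul, ← zpow_add₀ hpR]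
        congr 1
        push_cast
        ring

/-- the approximating sums converge -/
lemma exists_tendsto_klSum (p : ℕ) [hp : Fact p.Prime] {k : ℕ} (hk : 2 ≤ k) :
    ∃ x : ℚ_[p], Tendsto (klSum p k) atTop (𝓝 x) := by
  obtain ⟨C, hC, hCN⟩ := exists_norm_invPowSum_le p (r := k) (by omega)
  have hp1 : (1 : ℝ) < p := by exact_mod_cast hp.out.one_lt
  have hp0 : (0 : ℝ) < p := by linarith
  set D : ℝ := ‖(((k - 1 : ℕ) : ℚ_[p]) * (((p : ℚ_[p]) - 1) / 2))‖ * C + p with hD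
  have hbound : ∀ N, N ≠ 0 → dist (klSum p k N) (klSum p k (N + 1)) ≤ D * (1 / (p : ℝ)) ^ N := by
    intro N hN
    rw [dist_comm, dist_eq_norm]
    have h1 := klSum_succ_sub (p := p) hN (k := k) (by omega)
    have h2 : ‖(((k - 1 : ℕ) : ℚ_[p]) * (((p : ℚ_[p]) - 1) / 2)) * invPowSum p k N‖
        ≤ ‖(((k - 1 : ℕ) : ℚ_[p]) * (((p : ℚ_[p]) - 1) / 2))‖ * (C * (p : ℝ) ^ (-(N : ℤ))) := by
      rw [norm_mul]
      exact mul_le_mul_of_nonneg_left (hCN N) (norm_nonneg _)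
    have h3 : klSum p k (N + 1) - klSum p k N
        = (klSum p k (N + 1) - klSum p k N
      + ((k - 1 : ℕ) : ℚ_[p]) * (((p : ℚ_[p]) - 1) / 2) * invPowSum p k N)
        - (((k - 1 : ℕ) : ℚ_[p]) * (((p : ℚ_[p]) - 1) / 2)) * invPowSum p k N := by ring
    rw [h3]
    refine (norm_sub_le _ _).trans ?_
    have e1 : (p : ℝ) ^ (-(N : ℤ)) = (1 / (p : ℝ)) ^ N := by
      rw [zpow_neg, zpow_natCast, one_div, inv_pow]
    have e2 : (p : ℝ) ^ (1 - (N : ℤ)) = p * (1 / (p : ℝ)) ^ N := by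
      rw [zpow_sub₀ hp0.ne', zpow_one, zpow_natCast, one_div, inv_pow]; ring
    rw [e2] at h1
    rw [e1] at h2
    calc _ ≤ p * (1 / (p : ℝ)) ^ N
        + ‖(((k - 1 : ℕ) : ℚ_[p]) * (((p : ℚ_[p]) - 1) / 2))‖ * (C * (1 / (p : ℝ)) ^ N) :=
          add_le_add h1 h2
      _ = D * (1 / (p : ℝ)) ^ N := by rw [hD]; ring
  have hcau : CauchySeq (fun N => klSum p k (N + 1)) := by
    apply cauchySeq_of_le_geometric (1 / (p : ℝ)) (D * (1 / p)) (by rw [div_lt_one hp0]; exact hp1)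
    intro N
    refine (hbound (N + 1) (by omega)).trans (le_of_eq ?_)
    rw [pow_succ]; ring
  obtain ⟨x, hx⟩ := cauchySeq_tendsto_of_complete hcau
  exact ⟨x, (tendsto_add_atTop_iff_nat 1).1 hx⟩

lemma tendsto_klSum (p : ℕ) [hp : Fact p.Prime] {k : ℕ} (hk : 2 ≤ k) :
    Tendsto (klSum p k) atTop (𝓝 (limUnder atTop (klSum p k))) :=
  tendsto_nhds_limUnder (exists_tendsto_klSum p hk)

lemma norm_klSum_le_one {k : ℕ} (hk : 2 ≤ k) (hkp : k < p) (N : ℕ) : ‖klSum p k N‖ ≤ 1 := by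
  unfold klSum
  rw [norm_mul, norm_inv, Padic.norm_p_pow]
  have h := norm_invPowSum_le_of_lt (p := p) (r := k - 1) (by omega) (by omega) N
  have hp0 : (0 : ℝ) < (p : ℝ) ^ (-(N : ℤ)) := by
    have : (0 : ℝ) < p := by exact_mod_cast hp.out.pos
    positivity
  rw [inv_mul_le_iff₀ hp0, mul_one]
  exact h

end Pool.Agent.Work.MP_03df5c_h91
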