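import Pool.Agent.Work.MP_03df5c_h91.Interp

open Filter Topology Finset

namespace Pool.Agent.Work.MP_03df5c_h91

variable {p : ℕ} [hp : Fact p.Prime]

/-- multiplication by `c` permutes the residues modulo `p ^ N`. -/
lemma powSum_perm {c : ℕ} (hc : ¬ p ∣ c) (n N : ℕ) :
    powSum p n N = ∑ a ∈ range (p ^ N), (((c * a % p ^ N : ℕ) : ℚ_[p])) ^ n := by
  unfold powSum
  symm
  have hpN : 0 < p ^ N := pow_pos hp.out.pos N
  have hinj : Set.InjOn (fun a => c * a % p ^ N) (range (p ^ N) : Finset ℕ) := by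
    intro a ha b hb hab
    replace ha := Finset.mem_range.1 (Finset.mem_coe.1 ha)
    replace hb := Finset.mem_range.1 (Finset.mem_coe.1 hb)
    have h1 : c * a ≡ c * b [MOD p ^ N] := hab
    have hcop : Nat.Coprime (p ^ N) c :=
      Nat.Coprime.pow_left N ((Nat.Prime.coprime_iff_not_dvd hp.out).2 hc)
    have h2 : a ≡ b [MOD p ^ N] := Nat.ModEq.cancel_left_of_coprime hcop h1
    exact Nat.ModEq.eq_of_lt_of_lt h2 ha hb
  have himg : (range (p ^ N)).image (fun a => c * a % p ^ N) = range (p ^ N) := by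
    apply Finset.eq_of_subset_of_card_le
    · intro x hx
      obtain ⟨a, ha, rfl⟩ := mem_image.1 hx
      exact mem_range.2 (Nat.mod_lt _ hpN)
    · rw [card_image_of_injOn hinj]
  conv_rhs => rw [← himg]
  rw [sum_image (fun a ha b hb h => hinj ha hb h)]

/-- Voronoi's sums `∑_{a < p^N} (ca)^{n-1} ⌊ca/p^N⌋`. -/
noncomputable def vor (p : ℕ) [Fact p.Prime] (c n N : ℕ) : ℚ_[p] :=
  ∑ a ∈ range (p ^ N), ((c * a : ℕ) : ℚ_[p]) ^ (n - 1) * ((c * a / p ^ N : ℕ) : ℚ_[p])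

lemma norm_vor_sub_le {c : ℕ} (hc : ¬ p ∣ c) (n N : ℕ) :
    ‖((c : ℚ_[p]) ^ n - 1) * volk p n N - n * vor p c n N‖ ≤ (p : ℝ) ^ (-(N : ℤ)) := by
  have hp0 : (p : ℚ_[p]) ≠ 0 := by exact_mod_cast hp.out.ne_zero
  have hpR : (0 : ℝ) < (p : ℝ) := by exact_mod_cast hp.out.pos
  have hN : (p : ℚ_[p]) ^ N ≠ 0 := pow_ne_zero _ hp0
  have e : ((c : ℚ_[p]) ^ n - 1) * volk p n N - n * vor p c n N
      = ((p : ℚ_[p]) ^ N)⁻¹ * -(∑ a ∈ range (p ^ N),
        (((c * a : ℕ) : ℚ_[p]) + -((p : ℚ_[p]) ^ N * ((c * a / p ^ N : ℕ) : ℚ_[p]))) ^ n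
          - ∑ a ∈ range (p ^ N), ((c * a : ℕ) : ℚ_[p]) ^ n
          - ∑ a ∈ range (p ^ N), n * ((c * a : ℕ) : ℚ_[p]) ^ (n - 1)
            * -((p : ℚ_[p]) ^ N * ((c * a / p ^ N : ℕ) : ℚ_[p]))) := by
    have h1 : ∑ a ∈ range (p ^ N),
        (((c * a : ℕ) : ℚ_[p]) + -((p : ℚ_[p]) ^ N * ((c * a / p ^ N : ℕ) : ℚ_[p]))) ^ n
        = powSum p n N := by
      rw [powSum_perm hc]
      refine sum_congr rfl fun a _ => ?_
      congr 1
      have h := Nat.mod_add_div (c * a) (p ^ N)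
      have h2 : (((c * a % p ^ N + p ^ N * (c * a / p ^ N)) : ℕ) : ℚ_[p])
          = ((c * a : ℕ) : ℚ_[p]) := by rw [h]
      rw [← h2]; push_cast; ring
    have h2 : ∑ a ∈ range (p ^ N), ((c * a : ℕ) : ℚ_[p]) ^ n = (c : ℚ_[p]) ^ n * powSum p n N := by
      unfold powSum
      rw [mul_sum]
      refine sum_congr rfl fun a _ => ?_
      push_cast; rw [mul_pow]
    have h3 : ∑ a ∈ range (p ^ N), n * ((c * a : ℕ) : ℚ_[p]) ^ (n - 1)
            * -((p : ℚ_[p]) ^ N * ((c * a / p ^ N : ℕ) : ℚ_[p]))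
        = -((p : ℚ_[p]) ^ N * (n * vor p c n N)) := by
      unfold vor
      rw [mul_sum, mul_sum, ← sum_neg_distrib]
      refine sum_congr rfl fun a _ => ?_
      ring
    rw [h1, h2, h3]
    unfold volk
    field_simp
    ring
  rw [e, norm_mul, norm_neg, norm_inv, Padic.norm_p_pow, ← sum_sub_distrib, ← sum_sub_distrib]
  have hb : ‖∑ a ∈ range (p ^ N),
      ((((c * a : ℕ) : ℚ_[p]) + -((p : ℚ_[p]) ^ N * ((c * a / p ^ N : ℕ) : ℚ_[p]))) ^ n
          - ((c * a : ℕ) : ℚ_[p]) ^ n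
          - n * ((c * a : ℕ) : ℚ_[p]) ^ (n - 1)
            * -((p : ℚ_[p]) ^ N * ((c * a / p ^ N : ℕ) : ℚ_[p])))‖
      ≤ ((p : ℝ) ^ (-(N : ℤ))) ^ 2 := by
    refine norm_sum_le_of_le _ _ (by positivity) fun a ha => ?_
    have hy : ‖-((p : ℚ_[p]) ^ N * ((c * a / p ^ N : ℕ) : ℚ_[p]))‖ ≤ (p : ℝ) ^ (-(N : ℤ)) := by
      rw [norm_neg, norm_mul, Padic.norm_p_pow]
      exact mul_le_of_le_one_right (by positivity) (norm_natCast_le_one _)
    have hy1 : ‖-((p : ℚ_[p]) ^ N * ((c * a / p ^ N : ℕ) : ℚ_[p]))‖ ≤ 1 := by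
      rw [norm_neg, ← Nat.cast_pow, ← Nat.cast_mul]
      exact norm_natCast_le_one _
    exact (norm_pow_expand_le (norm_natCast_le_one _) hy1 n).trans
      (pow_le_pow_left₀ (norm_nonneg _) hy 2)
  calc ((p : ℝ) ^ (-(N : ℤ)))⁻¹ * _ ≤ ((p : ℝ) ^ (-(N : ℤ)))⁻¹ * ((p : ℝ) ^ (-(N : ℤ))) ^ 2 :=
        mul_le_mul_of_nonneg_left hb (by positivity)
    _ = (p : ℝ) ^ (-(N : ℤ)) := by
        have : (p : ℝ) ^ (-(N : ℤ)) ≠ 0 := (zpow_pos hpR _).ne'
        field_simp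

lemma tendsto_zpow_neg (p : ℕ) [hp : Fact p.Prime] :
    Tendsto (fun N : ℕ => (p : ℝ) ^ (-(N : ℤ))) atTop (𝓝 0) := by
  have hp1 : (1 : ℝ) < p := by exact_mod_cast hp.out.one_lt
  have hp0 : (0 : ℝ) < p := by linarith
  have := tendsto_pow_atTop_nhds_zero_of_lt_one (r := 1 / (p : ℝ)) (by positivity)
        (by rw [div_lt_one hp0]; exact hp1)
  refine this.congr fun N => ?_
  rw [zpow_neg, zpow_natCast, one_div, inv_pow]

lemma tendsto_vor {c : ℕ} (hc : ¬ p ∣ c) {n : ℕ} (hn : n ≠ 0) :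
    Tendsto (vor p c n) atTop
      (𝓝 (((c : ℚ_[p]) ^ n - 1) * (((bernoulli n : ℚ) : ℚ_[p]) / n))) := by
  have hn0 : (n : ℚ_[p]) ≠ 0 := by exact_mod_cast hn
  have h1 : Tendsto (fun N => ((c : ℚ_[p]) ^ n - 1) * volk p n N - n * vor p c n N) atTop (𝓝 0) := by
    rw [tendsto_zero_iff_norm_tendsto_zero]
    exact squeeze_zero (fun _ => norm_nonneg _) (norm_vor_sub_le hc n) (tendsto_zpow_neg p)
  have h2 := ((tendsto_volk (p := p) n).const_mul ((c : ℚ_[p]) ^ n - 1)).sub h1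
  have h3 := h2.const_mul ((n : ℚ_[p])⁻¹)
  have e : (n : ℚ_[p])⁻¹ * (((c : ℚ_[p]) ^ n - 1) * ((bernoulli n : ℚ) : ℚ_[p]) - 0)
      = ((c : ℚ_[p]) ^ n - 1) * (((bernoulli n : ℚ) : ℚ_[p]) / n) := by
    rw [sub_zero]; ring
  rw [e] at h3
  refine h3.congr fun N => ?_
  rw [sub_sub_cancel, ← mul_assoc, inv_mul_cancel₀ hn0, one_mul]

lemma norm_vor_le_one (c n N : ℕ) : ‖vor p c n N‖ ≤ 1 := by
  unfold vor
  refine norm_sum_le_of_le _ _ zero_le_one fun a _ => ?_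
  rw [← Nat.cast_pow, ← Nat.cast_mul]
  exact norm_natCast_le_one _

lemma pow_modEq {n n' : ℕ} (hn : 2 ≤ n) (hn' : 2 ≤ n') (h : n ≡ n' [MOD p - 1]) (x : ZMod p) :
    x ^ (n - 1) = x ^ (n' - 1) := by
  by_cases hx : x = 0
  · subst hx
    rw [zero_pow (by omega), zero_pow (by omega)]
  · have h1 : x ^ (p - 1) = 1 := ZMod.pow_card_sub_one_eq_one hx
    have h2 : n - 1 ≡ n' - 1 [MOD p - 1] := by
      apply Nat.ModEq.add_right_cancel' 1
      rwa [Nat.sub_add_cancel (by omega), Nat.sub_add_cancel (by omega)]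
    rw [← Nat.mod_add_div (n - 1) (p - 1), ← Nat.mod_add_div (n' - 1) (p - 1), pow_add, pow_add,
      pow_mul, pow_mul, h1, one_pow, one_pow, mul_one, mul_one]
    congr 1

lemma norm_natCast_sub_le_of_zmod {a b : ℕ} (h : (a : ZMod p) = (b : ZMod p)) :
    ‖(a : ℚ_[p]) - (b : ℚ_[p])‖ ≤ (p : ℝ)⁻¹ := by
  have h1 : ((p ^ 1 : ℕ) : ℤ) ∣ ((a : ℤ) - b) := by
    rw [pow_one, ← ZMod.intCast_zmod_eq_zero_iff_dvd]
    push_cast
    rw [h, sub_self]
  have h2 := (Padic.norm_int_le_pow_iff_dvd (p := p) ((a : ℤ) - b) 1).2 (by exact_mod_cast h1)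
  push_cast at h2
  rwa [zpow_neg_one] at h2

lemma norm_vor_congr (c : ℕ) {n n' : ℕ} (hn : 2 ≤ n) (hn' : 2 ≤ n') (h : n ≡ n' [MOD p - 1])
    (N : ℕ) : ‖vor p c n N - vor p c n' N‖ ≤ (p : ℝ)⁻¹ := by
  unfold vor
  rw [← sum_sub_distrib]
  refine norm_sum_le_of_le _ _ (by positivity) fun a _ => ?_
  rw [← sub_mul, norm_mul]
  refine (mul_le_of_le_one_right (norm_nonneg _) (norm_natCast_le_one _)).trans ?_
  rw [← Nat.cast_pow, ← Nat.cast_pow]
  apply norm_natCast_sub_le_of_zmod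
  push_cast
  exact pow_modEq hn hn' h _

lemma exists_pow_ne_one {n : ℕ} (hd : ¬ (p - 1) ∣ n) :
    ∃ c : ℕ, ¬ p ∣ c ∧ ‖(c : ℚ_[p]) ^ n - 1‖ = 1 := by
  have hp2 := hp.out.two_le
  have hr : n % (p - 1) ≠ 0 := fun h => hd (Nat.dvd_of_mod_eq_zero h)
  have hrp : n % (p - 1) < p - 1 := Nat.mod_lt _ (by omega)
  obtain ⟨u, hu⟩ : ∃ u : (ZMod p)ˣ, u ^ (n % (p - 1)) ≠ 1 := by
    apply exists_pow_ne_one_of_isCyclic hr
    rw [Nat.card_eq_fintype_card, ZMod.card_units_eq_totient, Nat.totient_prime hp.out]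
    exact hrp
  have hun : u ^ n ≠ 1 := by
    rw [← Nat.mod_add_div n (p - 1), pow_add, pow_mul, ZMod.units_pow_card_sub_one_eq_one, one_pow,
      mul_one]
    exact hu
  set g : ℕ := (u : ZMod p).val with hgdef
  have hcast : ((g : ℕ) : ZMod p) = (u : ZMod p) := by
    rw [hgdef, ZMod.natCast_zmod_val]
  have hg : ¬ p ∣ g := by
    intro h
    have : ((g : ℕ) : ZMod p) = 0 := (ZMod.natCast_eq_zero_iff _ _).2 h
    rw [hcast] at this
    exact u.ne_zero this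
  refine ⟨g, hg, ?_⟩
  have hgr : ¬ (p : ℤ) ∣ ((g : ℤ) ^ n - 1) := by
    intro h
    have h1 : (((g : ℤ) ^ n - 1 : ℤ) : ZMod p) = 0 := (ZMod.intCast_zmod_eq_zero_iff_dvd _ _).2 h
    push_cast at h1
    rw [hcast, sub_eq_zero] at h1
    apply hun
    ext
    simpa using h1
  have h2 : ((g : ℚ_[p]) ^ n - 1) = (((g : ℤ) ^ n - 1 : ℤ) : ℚ_[p]) := by push_cast; ring
  rw [h2, Padic.norm_intCast_eq_one_iff, isCoprime_comm]
  exact ((Nat.prime_iff_prime_int.1 hp.out).coprime_iff_not_dvd).2 hgr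

/-- `B_n / n` is `p`-integral if `p - 1` does not divide `n`. -/
theorem norm_bernoulli_div_le_one {n : ℕ} (hd : ¬ (p - 1) ∣ n) :
    ‖((bernoulli n : ℚ) : ℚ_[p]) / n‖ ≤ 1 := by
  obtain ⟨c, hc, hc1⟩ := exists_pow_ne_one (p := p) hd
  have hn : n ≠ 0 := by rintro rfl; exact hd (dvd_zero _)
  have h := le_of_tendsto (tendsto_vor (p := p) hc hn).norm
    (Eventually.of_forall (norm_vor_le_one c n))
  rwa [norm_mul, hc1, one_mul] at h

/-- **Kummer's congruence** modulo `p`. -/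
theorem kummer {n n' : ℕ} (hn : 2 ≤ n) (hn' : 2 ≤ n') (h : n ≡ n' [MOD p - 1])
    (hd : ¬ (p - 1) ∣ n) :
    ‖((bernoulli n : ℚ) : ℚ_[p]) / n - ((bernoulli n' : ℚ) : ℚ_[p]) / n'‖ ≤ (p : ℝ)⁻¹ := by
  have hd' : ¬ (p - 1) ∣ n' := by
    intro h'
    exact hd ((h.dvd_iff (dvd_refl _)).2 h')
  obtain ⟨c, hc, hc1⟩ := exists_pow_ne_one (p := p) hd
  have h1 := (tendsto_vor (p := p) hc (n := n) (by omega)).sub
    (tendsto_vor (p := p) hc (n := n') (by omega))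
  have h2 := le_of_tendsto h1.norm (Eventually.of_forall (norm_vor_congr c hn hn' h))
  have h3 : ‖(c : ℚ_[p]) ^ n - (c : ℚ_[p]) ^ n'‖ ≤ (p : ℝ)⁻¹ := by
    rw [← Nat.cast_pow, ← Nat.cast_pow]
    apply norm_natCast_sub_le_of_zmod
    push_cast
    have := pow_modEq (p := p) hn hn' h (c : ZMod p)
    rw [show n = (n - 1) + 1 by omega, show n' = (n' - 1) + 1 by omega, pow_succ, pow_succ, this]
  have h4 := norm_bernoulli_div_le_one (p := p) hd'
  have e : ((c : ℚ_[p]) ^ n - 1) *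
      (((bernoulli n : ℚ) : ℚ_[p]) / n - ((bernoulli n' : ℚ) : ℚ_[p]) / n')
      = (((c : ℚ_[p]) ^ n - 1) * (((bernoulli n : ℚ) : ℚ_[p]) / n)
        - ((c : ℚ_[p]) ^ n' - 1) * (((bernoulli n' : ℚ) : ℚ_[p]) / n'))
        - ((c : ℚ_[p]) ^ n - (c : ℚ_[p]) ^ n') * (((bernoulli n' : ℚ) : ℚ_[p]) / n') := by ring
  have h5 : ‖((c : ℚ_[p]) ^ n - 1) *
      (((bernoulli n : ℚ) : ℚ_[p]) / n - ((bernoulli n' : ℚ) : ℚ_[p]) / n')‖ ≤ (p : ℝ)⁻¹ := by
    rw [e]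
    refine norm_sub_le_of_le h2 ?_
    rw [norm_mul]
    exact (mul_le_of_le_one_right (norm_nonneg _) h4).trans h3
  rwa [norm_mul, hc1, one_mul] at h5

/-- The reduction of the Kubota-Leopoldt value modulo `p`. -/
theorem norm_kubotaLeopoldt_sub_le {k : ℕ} (hk : 2 ≤ k) (hkp : k + 2 ≤ p) :
    ‖kubotaLeopoldt p k - ((bernoulli (p - k) : ℚ) : ℚ_[p]) / k‖ ≤ (p : ℝ)⁻¹ := by
  have hp1 : (1 : ℝ) < p := by exact_mod_cast hp.out.one_lt
  have hdk : ¬ (p - 1) ∣ (p - k) := by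
    intro h
    have := Nat.le_of_dvd (by omega) h
    omega
  have hx := norm_bernoulli_div_le_one (p := p) hdk
  -- the approximations
  have happ : ∀ M, 1 ≤ M → ‖klApprox p k M + ((bernoulli (p - k) : ℚ) : ℚ_[p]) / (p - k : ℕ)‖
      ≤ (p : ℝ)⁻¹ := by
    intro M hM
    have hsum := nSeq_add (p := p) k M
    set n := nSeq p k M with hn
    have hpM : p ≤ p ^ M := Nat.le_self_pow (by omega) p
    have hn2 : 2 ≤ n := by
      rw [hn]
      unfold nSeq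
      have h1 : 4 * 3 ≤ p ^ M * (p - 1) := Nat.mul_le_mul (by omega) (by omega)
      have h2 : 1 * 2 ≤ (k - 1) * (p ^ M * (p - 1) - 1) := Nat.mul_le_mul (by omega) (by omega)
      simpa using h2
    have hmod : n ≡ p - k [MOD p - 1] := by
      apply Nat.ModEq.add_right_cancel' (k - 1)
      rw [hsum, show p - k + (k - 1) = p - 1 by omega]
      rw [← mul_assoc]
      exact ((Nat.modEq_zero_iff_dvd.2 (dvd_mul_left _ _))).trans
        (Nat.modEq_zero_iff_dvd.2 (dvd_refl _)).symm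
    have hdn : ¬ (p - 1) ∣ n := fun h' => hdk ((hmod.dvd_iff (dvd_refl _)).1 h')
    have hK := kummer (p := p) hn2 (by omega : 2 ≤ p - k) hmod hdn
    have hI := norm_bernoulli_div_le_one (p := p) hdn
    have e : klApprox p k M + ((bernoulli (p - k) : ℚ) : ℚ_[p]) / (p - k : ℕ)
        = (p : ℚ_[p]) ^ (n - 1) * (((bernoulli n : ℚ) : ℚ_[p]) / n)
          - (((bernoulli n : ℚ) : ℚ_[p]) / n - ((bernoulli (p - k) : ℚ) : ℚ_[p]) / (p - k : ℕ)) := by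
      unfold klApprox
      rw [← hn]
      ring
    rw [e]
    refine norm_sub_le_of_le ?_ hK
    rw [norm_mul, Padic.norm_p_pow]
    refine (mul_le_of_le_one_right (by positivity) hI).trans ?_
    rw [← zpow_neg_one]
    apply zpow_le_zpow_right₀ hp1.le
    omega
  have hlim := ((tendsto_kubotaLeopoldt (p := p) hk).add_const
    (((bernoulli (p - k) : ℚ) : ℚ_[p]) / (p - k : ℕ))).norm
  have h1 : ‖kubotaLeopoldt p k + ((bernoulli (p - k) : ℚ) : ℚ_[p]) / (p - k : ℕ)‖ ≤ (p : ℝ)⁻¹ := by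
    refine le_of_tendsto hlim ?_
    filter_upwards [eventually_ge_atTop 1] with M hM using happ M hM
  have hk0 : (k : ℚ_[p]) ≠ 0 := by exact_mod_cast (by omega : k ≠ 0)
  have hk1 : ‖(k : ℚ_[p])‖ = 1 := norm_nat_eq_one fun h => by
    have := Nat.le_of_dvd (by omega) h
    omega
  have e : kubotaLeopoldt p k - ((bernoulli (p - k) : ℚ) : ℚ_[p]) / k
      = (kubotaLeopoldt p k + ((bernoulli (p - k) : ℚ) : ℚ_[p]) / (p - k : ℕ))
        - (p : ℚ_[p]) * (((bernoulli (p - k) : ℚ) : ℚ_[p]) / (p - k : ℕ)) * (k : ℚ_[p])⁻¹ := by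
    have hpk : ((p - k : ℕ) : ℚ_[p]) ≠ 0 := by exact_mod_cast (by omega : p - k ≠ 0)
    rw [Nat.cast_sub (by omega)] at hpk ⊢
    field_simp
    ring
  rw [e]
  refine norm_sub_le_of_le h1 ?_
  rw [norm_mul, norm_mul, norm_inv, hk1, inv_one, mul_one, Padic.norm_p]
  exact mul_le_of_le_one_right (by positivity) hx

lemma norm_bernoulli_div_natCast_le_one' {k : ℕ} (hk : 2 ≤ k) (hkp : k + 2 ≤ p) :
    ‖((bernoulli (p - k) : ℚ) : ℚ_[p]) / k‖ ≤ 1 := by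
  have hdk : ¬ (p - 1) ∣ (p - k) := by
    intro h
    have := Nat.le_of_dvd (by omega) h
    omega
  have hx := norm_bernoulli_div_le_one (p := p) hdk
  have hk1 : ‖(k : ℚ_[p])‖ = 1 := norm_nat_eq_one fun h => by
    have := Nat.le_of_dvd (by omega) h
    omega
  have hpk : ‖((p - k : ℕ) : ℚ_[p])‖ = 1 := norm_nat_eq_one fun h => by
    have := Nat.le_of_dvd (by omega) h
    omega
  rw [norm_div, hpk, div_one] at hx
  rwa [norm_div, hk1, div_one]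

lemma norm_kubotaLeopoldt_le_one {k : ℕ} (hk : 2 ≤ k) (hkp : k + 2 ≤ p) :
    ‖kubotaLeopoldt p k‖ ≤ 1 := by
  have hp1 : (1 : ℝ) < p := by exact_mod_cast hp.out.one_lt
  have h1 := norm_kubotaLeopoldt_sub_le (p := p) hk hkp
  have hb := norm_bernoulli_div_natCast_le_one' (p := p) hk hkp
  have e : kubotaLeopoldt p k = (kubotaLeopoldt p k - ((bernoulli (p - k) : ℚ) : ℚ_[p]) / k)
    + ((bernoulli (p - k) : ℚ) : ℚ_[p]) / k := by ring
  rw [e]
  exact norm_add_le_of_le (h1.trans (inv_le_one_of_one_le₀ hp1.le)) hb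

end Pool.Agent.Work.MP_03df5c_h91
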