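import Pool.Agent.Work.MP_03df5c_h91.Kummer

open Filter Topology Finset

namespace Pool.Agent.Work.MP_03df5c_h91

variable {p : ℕ} [hp : Fact p.Prime]

/-- `ζ_p(k) = 0` for even `k`. -/
theorem zetaP_even {k : ℕ} (hk : Even k) (h2 : 2 ≤ k) : zetaP p k = 0 := by
  have h0 : ∀ M, 2 ≤ M → klApprox p k M = 0 := by
    intro M hM
    have hp2 := hp.out.two_le
    have hpM : 4 ≤ p ^ M := by
      calc 4 = 2 ^ 2 := by norm_num
        _ ≤ p ^ 2 := Nat.pow_le_pow_left hp2 2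
        _ ≤ p ^ M := Nat.pow_le_pow_right hp.out.pos hM
    have heven : Even (p ^ M * (p - 1)) := by
      rcases Nat.even_or_odd p with h | h
      · exact (h.pow_of_ne_zero (by omega)).mul_right _
      · obtain ⟨j, hj⟩ := h
        exact (show Even (p - 1) from ⟨j, by omega⟩).mul_left _
    have h1 : 4 * 1 ≤ p ^ M * (p - 1) := Nat.mul_le_mul hpM (by omega)
    have hodd1 : Odd (p ^ M * (p - 1) - 1) := by
      obtain ⟨j, hj⟩ := heven
      exact ⟨j - 1, by omega⟩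
    have hodd2 : Odd (k - 1) := by
      obtain ⟨j, hj⟩ := hk
      exact ⟨j - 1, by omega⟩
    have hodd : Odd (nSeq p k M) := hodd2.mul hodd1
    have hgt : 1 < nSeq p k M := by
      have : 1 * 3 ≤ (k - 1) * (p ^ M * (p - 1) - 1) := Nat.mul_le_mul (by omega) (by omega)
      unfold nSeq
      omega
    unfold klApprox
    rw [bernoulli_eq_zero_of_odd hodd hgt]
    simp
  have h1 : Tendsto (klApprox p k) atTop (𝓝 0) := by
    refine tendsto_const_nhds.congr' ?_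
    filter_upwards [eventually_ge_atTop 2] with M hM using (h0 M hM).symm
  unfold zetaP
  rw [tendsto_nhds_unique (tendsto_kubotaLeopoldt h2) h1, mul_zero]

lemma norm_p_pow_sub_one {k : ℕ} (hk : k ≠ 0) : ‖(p : ℚ_[p]) ^ k - 1‖ = 1 := by
  have hlt : ‖(p : ℚ_[p]) ^ k‖ < 1 := by
    rw [norm_pow]
    exact pow_lt_one₀ (norm_nonneg _) (Padic.norm_p_lt_one) hk
  rw [sub_eq_add_neg, IsUltrametricDist.norm_add_eq_max_of_norm_ne_norm
    (by rw [norm_neg, norm_one]; exact hlt.ne), norm_neg, norm_one, max_eq_right hlt.le]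

/-- the unit part of `ζ_p(k)` -/
lemma exists_unit_part {k : ℕ} (hk : 2 ≤ k) (hkp : k + 2 ≤ p) :
    ∃ u : ℚ_[p], zetaP p k = (p : ℚ_[p]) ^ k * u ∧ ‖u‖ ≤ 1 ∧
      ‖u - ((-(bernoulli (p - k)) / (k : ℚ) : ℚ) : ℚ_[p])‖ ≤ (p : ℝ)⁻¹ := by
  have hp0 : (p : ℚ_[p]) ≠ 0 := by exact_mod_cast hp.out.ne_zero
  have hp1 : (1 : ℝ) < p := by exact_mod_cast hp.out.one_lt
  have hn := norm_p_pow_sub_one (p := p) (k := k) (by omega)
  have hne : (p : ℚ_[p]) ^ k - 1 ≠ 0 := by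
    intro h; rw [h] at hn; simp at hn
  have hL := norm_kubotaLeopoldt_le_one (p := p) hk hkp
  have hLB := norm_kubotaLeopoldt_sub_le (p := p) hk hkp
  refine ⟨kubotaLeopoldt p k / ((p : ℚ_[p]) ^ k - 1), ?_, ?_, ?_⟩
  · unfold zetaP
    have hpk : (p : ℚ_[p]) ^ k ≠ 0 := pow_ne_zero _ hp0
    have e : (1 - ((p : ℚ_[p]) ^ k)⁻¹) = ((p : ℚ_[p]) ^ k - 1) / (p : ℚ_[p]) ^ k := by
      field_simp
    rw [e, inv_div]
    field_simp
  · rw [norm_div, hn, div_one]; exact hL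
  · have e : kubotaLeopoldt p k / ((p : ℚ_[p]) ^ k - 1)
        - ((-(bernoulli (p - k)) / (k : ℚ) : ℚ) : ℚ_[p])
        = (p : ℚ_[p]) ^ k * (kubotaLeopoldt p k / ((p : ℚ_[p]) ^ k - 1))
          - (kubotaLeopoldt p k - ((bernoulli (p - k) : ℚ) : ℚ_[p]) / k) := by
      push_cast
      field_simp
      ring
    rw [e]
    refine norm_sub_le_of_le ?_ hLB
    rw [norm_mul, norm_div, hn, div_one, Padic.norm_p_pow]
    refine (mul_le_of_le_one_right (by positivity) hL).trans ?_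
    rw [← zpow_neg_one]
    apply zpow_le_zpow_right₀ hp1.le
    omega

lemma norm_prod_pow_sub_le {ι : Type*} (s : Finset ι) (d : ι → ℕ) {x y : ι → ℚ_[p]}
    (hx : ∀ i, ‖x i‖ ≤ 1) (hy : ∀ i, ‖y i‖ ≤ 1) {ε : ℝ} (hε : 0 ≤ ε) (h : ∀ i, ‖x i - y i‖ ≤ ε) :
    ‖∏ i ∈ s, x i ^ d i - ∏ i ∈ s, y i ^ d i‖ ≤ ε := by
  classical
  induction s using Finset.induction_on with
  | empty => simpa using hε
  | insert a s ha ih =>
    rw [prod_insert ha, prod_insert ha]
    have e : x a ^ d a * ∏ i ∈ s, x i ^ d i - y a ^ d a * ∏ i ∈ s, y i ^ d i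
        = x a ^ d a * (∏ i ∈ s, x i ^ d i - ∏ i ∈ s, y i ^ d i)
          + (x a ^ d a - y a ^ d a) * ∏ i ∈ s, y i ^ d i := by ring
    rw [e]
    refine norm_add_le_of_le ?_ ?_
    · rw [norm_mul, norm_pow]
      exact (mul_le_of_le_one_left (norm_nonneg _) (pow_le_one₀ (norm_nonneg _) (hx a))).trans ih
    · rw [norm_mul]
      refine (mul_le_of_le_one_right (norm_nonneg _) ?_).trans
        ((norm_pow_sub_pow_le (hx a) (hy a) (d a)).trans (h a))
      rw [norm_prod]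
      refine prod_le_one (fun _ _ => norm_nonneg _) fun i _ => ?_
      rw [norm_pow]
      exact pow_le_one₀ (norm_nonneg _) (hy i)

lemma dvd_num_of_norm_lt_one {q : ℚ} (h : ‖(q : ℚ_[p])‖ < 1) : (p : ℤ) ∣ q.num := by
  have h1 : ‖(q.num : ℚ_[p])‖ < 1 := by
    have e : (q.num : ℚ_[p]) = (q : ℚ_[p]) * (q.den : ℚ_[p]) := by
      have := Rat.mul_den_eq_num q
      have h2 : ((q * (q.den : ℚ) : ℚ) : ℚ_[p]) = ((q.num : ℚ) : ℚ_[p]) := by rw [this]
      push_cast at h2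
      exact h2.symm
    rw [e, norm_mul]
    exact (mul_le_of_le_one_right (norm_nonneg _) (norm_natCast_le_one _)).trans_lt h
  exact (Padic.norm_intCast_lt_one_iff (k := q.num)).1 h1

/-- If `g(ζ_p(k_1), …) = 0` then, for `p` large, the lowest weight part of `g` vanishes modulo `p`
at the numbers `-B_{p-k_i}/k_i`. -/
theorem lowest_part {m : ℕ} {k : Fin m → ℕ} (hk : ∀ i, 2 ≤ k i) (g : MvPolynomial (Fin m) ℚ)
    (w : ℕ) (hw : ∀ v < w, MvPolynomial.weightedHomogeneousComponent k v g = 0) :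
    ∃ P : ℕ, ∀ p : ℕ, P < p → ∀ _ : Fact p.Prime,
      MvPolynomial.aeval (fun i => zetaP p (k i)) g = 0 →
      (p : ℤ) ∣ (MvPolynomial.eval (fun i => -(bernoulli (p - k i)) / (k i : ℚ))
        (MvPolynomial.weightedHomogeneousComponent k w g)).num := by
  classical
  refine ⟨(g.support.sup fun d => (g.coeff d).den) + (univ.sup k) + 2, fun p hP hpf h0 => ?_⟩
  have hp1 : (1 : ℝ) < p := by exact_mod_cast hpf.out.one_lt
  have hpR : (0 : ℝ) < p := by linarith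
  have hp0 : (p : ℚ_[p]) ≠ 0 := by exact_mod_cast hpf.out.ne_zero
  have hkp : ∀ i, k i + 2 ≤ p := fun i => by
    have := Finset.le_sup (f := k) (mem_univ i)
    omega
  have hcoeff : ∀ d, ‖((g.coeff d : ℚ) : ℚ_[p])‖ ≤ 1 := by
    intro d
    by_cases hd : d ∈ g.support
    · apply Padic.norm_rat_le_one
      intro hdvd
      have h1 := Nat.le_of_dvd (g.coeff d).den_pos hdvd
      have h2 := Finset.le_sup (f := fun d => (g.coeff d).den) hd
      omega
    · rw [MvPolynomial.notMem_support_iff.1 hd]; simp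
  choose u hu1 hu2 hu3 using fun i => exists_unit_part (p := p) (hk i) (hkp i)
  set c : Fin m → ℚ := fun i => -(bernoulli (p - k i)) / (k i : ℚ) with hc
  have hc1 : ∀ i, ‖(c i : ℚ_[p])‖ ≤ 1 := by
    intro i
    have e : (c i : ℚ_[p]) = u i - (u i - (c i : ℚ_[p])) := by ring
    rw [e]
    exact norm_sub_le_of_le (hu2 i) ((hu3 i).trans (inv_le_one_of_one_le₀ hp1.le))
  -- expansion of the values
  have hz : ∀ d : Fin m →₀ ℕ, ∏ i, zetaP p (k i) ^ d i
      = (p : ℚ_[p]) ^ (Finsupp.weight k d) * ∏ i, u i ^ d i := by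
    intro d
    rw [Finsupp.weight_apply, Finsupp.sum_fintype _ _ (by simp), ← prod_pow_eq_pow_sum,
      ← prod_mul_distrib]
    refine prod_congr rfl fun i _ => ?_
    rw [hu1 i, mul_pow, ← pow_mul]
    congr 2
    rw [smul_eq_mul, mul_comm]
  have hu_le : ∀ d : Fin m →₀ ℕ, ‖∏ i, u i ^ d i‖ ≤ 1 := by
    intro d
    rw [norm_prod]
    refine prod_le_one (fun _ _ => norm_nonneg _) fun i _ => ?_
    rw [norm_pow]
    exact pow_le_one₀ (norm_nonneg _) (hu2 i)
  have hlow : ∀ d ∈ g.support, w ≤ Finsupp.weight k d := by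
    intro d hd
    by_contra hlt
    have h1 := hw _ (not_le.1 hlt)
    have h2 := MvPolynomial.coeff_weightedHomogeneousComponent (w := k) (φ := g)
      (n := Finsupp.weight k d) d
    rw [h1, if_pos rfl, MvPolynomial.coeff_zero] at h2
    exact (MvPolynomial.mem_support_iff.1 hd) h2.symm
  -- the total sum
  have hsum : ∑ d ∈ g.support, ((g.coeff d : ℚ) : ℚ_[p]) *
      ((p : ℚ_[p]) ^ (Finsupp.weight k d) * ∏ i, u i ^ d i) = 0 := by
    rw [← h0, MvPolynomial.aeval_def, MvPolynomial.eval₂_eq']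
    refine sum_congr rfl fun d _ => ?_
    rw [← hz d]
    simp
  rw [← sum_filter_add_sum_filter_not g.support (fun d => Finsupp.weight k d = w)] at hsum
  have hhigh : ‖∑ d ∈ g.support.filter (fun d => ¬ Finsupp.weight k d = w),
      ((g.coeff d : ℚ) : ℚ_[p]) * ((p : ℚ_[p]) ^ (Finsupp.weight k d) * ∏ i, u i ^ d i)‖
      ≤ (p : ℝ) ^ (-((w + 1 : ℕ) : ℤ)) := by
    refine norm_sum_le_of_le _ _ (by positivity) fun d hd => ?_
    obtain ⟨hd1, hd2⟩ := mem_filter.1 hd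
    have h1 := hlow d hd1
    rw [norm_mul, norm_mul, Padic.norm_p_pow]
    have h2 : ‖((g.coeff d : ℚ) : ℚ_[p])‖ * ((p : ℝ) ^ (-((Finsupp.weight k d : ℕ) : ℤ))
        * ‖∏ i, u i ^ d i‖) ≤ 1 * ((p : ℝ) ^ (-((Finsupp.weight k d : ℕ) : ℤ)) * 1) := by
      apply mul_le_mul (hcoeff d) _ (by positivity) zero_le_one
      exact mul_le_mul_of_nonneg_left (hu_le d) (by positivity)
    refine h2.trans ?_
    rw [one_mul, mul_one]
    apply zpow_le_zpow_right₀ hp1.le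
    omega
  have hlow2 : ∑ d ∈ g.support.filter (fun d => Finsupp.weight k d = w),
      ((g.coeff d : ℚ) : ℚ_[p]) * ((p : ℚ_[p]) ^ (Finsupp.weight k d) * ∏ i, u i ^ d i)
      = (p : ℚ_[p]) ^ w * ∑ d ∈ g.support.filter (fun d => Finsupp.weight k d = w),
      ((g.coeff d : ℚ) : ℚ_[p]) * ∏ i, u i ^ d i := by
    rw [mul_sum]
    refine sum_congr rfl fun d hd => ?_
    rw [(mem_filter.1 hd).2]
    ring
  have hU : ‖∑ d ∈ g.support.filter (fun d => Finsupp.weight k d = w),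
      ((g.coeff d : ℚ) : ℚ_[p]) * ∏ i, u i ^ d i‖ ≤ (p : ℝ)⁻¹ := by
    rw [hlow2, add_eq_zero_iff_eq_neg] at hsum
    have h1 := congrArg norm hsum
    rw [norm_mul, norm_neg, Padic.norm_p_pow] at h1
    have hpw : (0 : ℝ) < (p : ℝ) ^ (-(w : ℤ)) := zpow_pos hpR _
    have h2 : (p : ℝ) ^ (-(w : ℤ)) * ‖∑ d ∈ g.support.filter (fun d => Finsupp.weight k d = w),
      ((g.coeff d : ℚ) : ℚ_[p]) * ∏ i, u i ^ d i‖ ≤ (p : ℝ) ^ (-(w : ℤ)) * (p : ℝ)⁻¹ := by
      rw [h1]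
      refine hhigh.trans (le_of_eq ?_)
      rw [← zpow_neg_one, ← zpow_add₀ hpR.ne']
      congr 1
      push_cast; ring
    exact le_of_mul_le_mul_left h2 hpw
  have hC : ‖∑ d ∈ g.support.filter (fun d => Finsupp.weight k d = w),
      ((g.coeff d : ℚ) : ℚ_[p]) * ∏ i, (c i : ℚ_[p]) ^ d i‖ ≤ (p : ℝ)⁻¹ := by
    have e : ∑ d ∈ g.support.filter (fun d => Finsupp.weight k d = w),
        ((g.coeff d : ℚ) : ℚ_[p]) * ∏ i, (c i : ℚ_[p]) ^ d i
        = ∑ d ∈ g.support.filter (fun d => Finsupp.weight k d = w),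
          ((g.coeff d : ℚ) : ℚ_[p]) * ∏ i, u i ^ d i
        - ∑ d ∈ g.support.filter (fun d => Finsupp.weight k d = w),
          ((g.coeff d : ℚ) : ℚ_[p]) * (∏ i, u i ^ d i - ∏ i, (c i : ℚ_[p]) ^ d i) := by
      rw [← sum_sub_distrib]
      refine sum_congr rfl fun d _ => ?_
      ring
    rw [e]
    refine norm_sub_le_of_le hU ?_
    refine norm_sum_le_of_le _ _ (by positivity) fun d _ => ?_
    rw [norm_mul]
    exact (mul_le_of_le_one_left (norm_nonneg _) (hcoeff d)).trans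
      (norm_prod_pow_sub_le _ _ hu2 hc1 (by positivity) hu3)
  apply dvd_num_of_norm_lt_one (p := p)
  have e : ((MvPolynomial.eval c (MvPolynomial.weightedHomogeneousComponent k w g) : ℚ) : ℚ_[p])
      = ∑ d ∈ g.support.filter (fun d => Finsupp.weight k d = w),
      ((g.coeff d : ℚ) : ℚ_[p]) * ∏ i, (c i : ℚ_[p]) ^ d i := by
    rw [MvPolynomial.weightedHomogeneousComponent_apply, map_sum]
    push_cast
    refine sum_congr rfl fun d _ => ?_
    rw [MvPolynomial.eval_monomial, Finsupp.prod_fintype _ _ (by simp)]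
    push_cast
    rfl
  rw [e]
  exact hC.trans_lt (inv_lt_one_of_one_lt₀ hp1)

end Pool.Agent.Work.MP_03df5c_h91
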