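import Pool.Agent.Work.MP_03df5c_h91.KL

open Filter Topology Finset

namespace Pool.Agent.Work.MP_03df5c_h91

variable {p : ℕ} [hp : Fact p.Prime]

/-- `∑_{a < p^N} a^n` in `ℚ_p`. -/
noncomputable def powSum (p : ℕ) [Fact p.Prime] (n N : ℕ) : ℚ_[p] :=
  ∑ a ∈ range (p ^ N), (a : ℚ_[p]) ^ n

/-- `∑_{a < p^N, p ∤ a} a^n` in `ℚ_p`. -/
noncomputable def powSumU (p : ℕ) [Fact p.Prime] (n N : ℕ) : ℚ_[p] :=
  ∑ a ∈ (range (p ^ N)).filter (fun a => ¬ p ∣ a), (a : ℚ_[p]) ^ n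

lemma powSum_succ (n N : ℕ) :
    powSum p n (N + 1) = ∑ b ∈ range (p ^ N),
      ∑ j ∈ range p, ((b : ℚ_[p]) + (j : ℚ_[p]) * (p : ℚ_[p]) ^ N) ^ n := by
  unfold powSum
  rw [← sum_product']
  symm
  have hpN : 0 < p ^ N := pow_pos hp.out.pos N
  refine sum_nbij' (fun x => x.1 + x.2 * p ^ N) (fun a => (a % p ^ N, a / p ^ N)) ?_ ?_ ?_ ?_ ?_
  · rintro ⟨b, j⟩ h
    simp only [mem_product, mem_range] at h ⊢
    have : j + 1 ≤ p := h.2
    calc b + j * p ^ N < p ^ N + j * p ^ N := by omega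
      _ = (j + 1) * p ^ N := by ring
      _ ≤ p * p ^ N := Nat.mul_le_mul_right _ this
      _ = p ^ (N + 1) := by ring
  · intro a h
    simp only [mem_product, mem_range] at h ⊢
    refine ⟨Nat.mod_lt _ hpN, ?_⟩
    rw [Nat.div_lt_iff_lt_mul hpN]
    calc a < p ^ (N + 1) := h
      _ = p * p ^ N := by ring
  · rintro ⟨b, j⟩ h
    simp only [mem_product, mem_range] at h
    simp only [Prod.mk.injEq]
    constructor
    · rw [Nat.add_mul_mod_self_right, Nat.mod_eq_of_lt h.1]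
    · rw [Nat.add_mul_div_right _ _ hpN, Nat.div_eq_of_lt h.1, zero_add]
  · intro a _
    simp only
    rw [mul_comm]
    exact Nat.mod_add_div a (p ^ N)
  · rintro ⟨b, j⟩ _
    simp only
    push_cast
    rfl

lemma norm_pow_expand_le {x y : ℚ_[p]} (hx : ‖x‖ ≤ 1) (hy : ‖y‖ ≤ 1) (n : ℕ) :
    ‖(x + y) ^ n - x ^ n - n * x ^ (n - 1) * y‖ ≤ ‖y‖ ^ 2 := by
  obtain ⟨x', hx'⟩ : ∃ x' : ℤ_[p], (x' : ℚ_[p]) = x := ⟨⟨x, hx⟩, rfl⟩
  obtain ⟨y', hy'⟩ : ∃ y' : ℤ_[p], (y' : ℚ_[p]) = y := ⟨⟨y, hy⟩, rfl⟩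
  obtain ⟨z, hz⟩ := Polynomial.powAddExpansion x' y' n
  have := congrArg (fun t : ℤ_[p] => (t : ℚ_[p])) hz
  push_cast at this
  rw [hx', hy'] at this
  have e : (x + y) ^ n - x ^ n - n * x ^ (n - 1) * y = z * y ^ 2 := by
    rw [this]; ring
  rw [e, norm_mul, norm_pow]
  exact mul_le_of_le_one_left (by positivity) (PadicInt.norm_le_one z)

lemma powSum_succ_sub (n N : ℕ) :
    ‖powSum p n (N + 1) - (p : ℚ_[p]) * powSum p n N
      - (n : ℚ_[p]) * (p : ℚ_[p]) ^ N * ((p : ℚ_[p]) * (((p : ℚ_[p]) - 1) / 2))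
        * powSum p (n - 1) N‖ ≤ ((p : ℝ) ^ (-(N : ℤ))) ^ 2 := by
  have e : powSum p n (N + 1) - (p : ℚ_[p]) * powSum p n N
      - (n : ℚ_[p]) * (p : ℚ_[p]) ^ N * ((p : ℚ_[p]) * (((p : ℚ_[p]) - 1) / 2))
        * powSum p (n - 1) N
      = ∑ b ∈ range (p ^ N), ∑ j ∈ range p,
        (((b : ℚ_[p]) + (j : ℚ_[p]) * (p : ℚ_[p]) ^ N) ^ n - (b : ℚ_[p]) ^ n
          - n * (b : ℚ_[p]) ^ (n - 1) * ((j : ℚ_[p]) * (p : ℚ_[p]) ^ N)) := by
    rw [powSum_succ, ← sum_range_natCast p]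
    unfold powSum
    rw [mul_sum, mul_sum, ← sum_sub_distrib, ← sum_sub_distrib]
    refine sum_congr rfl fun b _ => ?_
    rw [sum_sub_distrib, sum_sub_distrib, sum_const, card_range, nsmul_eq_mul]
    congr 1
    rw [← mul_sum, ← sum_mul]
    ring
  rw [e]
  refine norm_sum_le_of_le _ _ (by positivity) fun b hb => ?_
  refine norm_sum_le_of_le _ _ (by positivity) fun j hj => ?_
  have hy : ‖(j : ℚ_[p]) * (p : ℚ_[p]) ^ N‖ ≤ (p : ℝ) ^ (-(N : ℤ)) := by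
    rw [norm_mul, Padic.norm_p_pow]
    exact mul_le_of_le_one_left (by positivity) (norm_natCast_le_one _)
  have hy1 : ‖(j : ℚ_[p]) * (p : ℚ_[p]) ^ N‖ ≤ 1 := by
    rw [norm_mul, ← Nat.cast_pow]
    exact mul_le_one₀ (norm_natCast_le_one _) (norm_nonneg _) (norm_natCast_le_one _)
  exact (norm_pow_expand_le (norm_natCast_le_one b) hy1 n).trans
    (pow_le_pow_left₀ (norm_nonneg _) hy 2)

/-- `p^{-N} ∑_{a < p^N} a^n` -/
noncomputable def volk (p : ℕ) [Fact p.Prime] (n N : ℕ) : ℚ_[p] :=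
  ((p : ℚ_[p]) ^ N)⁻¹ * powSum p n N

lemma volk_succ_sub (n N : ℕ) :
    ‖volk p n (N + 1) - volk p n N
      - (n : ℚ_[p]) * (((p : ℚ_[p]) - 1) / 2) * (p : ℚ_[p]) ^ N * volk p (n - 1) N‖
      ≤ (p : ℝ) ^ (1 - (N : ℤ)) := by
  have hp0 : (p : ℚ_[p]) ≠ 0 := by exact_mod_cast hp.out.ne_zero
  have hpR : (p : ℝ) ≠ 0 := by exact_mod_cast hp.out.ne_zero
  have e : volk p n (N + 1) - volk p n N
      - (n : ℚ_[p]) * (((p : ℚ_[p]) - 1) / 2) * (p : ℚ_[p]) ^ N * volk p (n - 1) N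
      = ((p : ℚ_[p]) ^ (N + 1))⁻¹ * (powSum p n (N + 1) - (p : ℚ_[p]) * powSum p n N
      - (n : ℚ_[p]) * (p : ℚ_[p]) ^ N * ((p : ℚ_[p]) * (((p : ℚ_[p]) - 1) / 2))
        * powSum p (n - 1) N) := by
    unfold volk
    rw [pow_succ]
    field_simp
  rw [e, norm_mul, norm_inv, Padic.norm_p_pow]
  have hb := powSum_succ_sub (p := p) n N
  calc ((p : ℝ) ^ (-((N + 1 : ℕ) : ℤ)))⁻¹ * _
      ≤ ((p : ℝ) ^ (-((N + 1 : ℕ) : ℤ)))⁻¹ * ((p : ℝ) ^ (-(N : ℤ))) ^ 2 :=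
        mul_le_mul_of_nonneg_left hb (by positivity)
    _ = (p : ℝ) ^ (1 - (N : ℤ)) := by
        rw [← zpow_neg, ← zpow_natCast, ← zpow_mul, ← zpow_add₀ hpR]
        congr 1
        push_cast
        ring

lemma norm_half_le (p : ℕ) [hp : Fact p.Prime] : ‖((p : ℚ_[p]) - 1) / 2‖ ≤ p := by
  have hp1 : (1 : ℝ) ≤ p := by exact_mod_cast hp.out.one_lt.le
  have h1 : ‖((p : ℚ_[p]) - 1)‖ ≤ 1 := by
    rw [← Nat.cast_one, ← Nat.cast_sub hp.out.one_lt.le]; exact norm_natCast_le_one _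
  have h2 : (p : ℝ)⁻¹ ≤ ‖(2 : ℚ_[p])‖ := by
    rcases hp.out.eq_two_or_odd' with h | h
    · subst h
      have := Padic.norm_p (p := 2)
      push_cast at this ⊢
      rw [this]
    · have : ‖((2 : ℕ) : ℚ_[p])‖ = 1 := norm_nat_eq_one (by
        intro hd
        have := (Nat.prime_dvd_prime_iff_eq hp.out Nat.prime_two).1 hd
        subst this
        exact absurd h (by decide))
      push_cast at this
      rw [this]
      exact inv_le_one_of_one_le₀ hp1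
  rw [norm_div, div_le_iff₀ (by
    have : (0 : ℝ) < (p : ℝ)⁻¹ := by positivity
    linarith)]
  have : (0 : ℝ) < p := by linarith
  calc ‖((p : ℚ_[p]) - 1)‖ ≤ 1 := h1
    _ = p * (p : ℝ)⁻¹ := by field_simp
    _ ≤ p * ‖(2 : ℚ_[p])‖ := by gcongr

lemma norm_volk_le (n N : ℕ) : ‖volk p n N‖ ≤ p := by
  have hp1 : (1 : ℝ) < p := by exact_mod_cast hp.out.one_lt
  have hp0 : (0 : ℝ) < p := by linarith
  rcases Nat.eq_zero_or_pos N with rfl | hN
  · unfold volk powSum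
    simp only [pow_zero, inv_one, one_mul, range_one, sum_singleton, Nat.cast_zero]
    rcases Nat.eq_zero_or_pos n with rfl | hn
    · simp [hp1.le]
    · simp [hn.ne', hp0.le]
  induction N, hN using Nat.le_induction generalizing n with
  | base =>
    unfold volk
    rw [norm_mul, norm_inv, pow_one, Padic.norm_p, inv_inv]
    refine mul_le_of_le_one_right hp0.le ?_
    unfold powSum
    refine norm_sum_le_of_le _ _ zero_le_one fun a _ => ?_
    rw [norm_pow]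
    exact pow_le_one₀ (norm_nonneg _) (norm_natCast_le_one _)
  | succ N hN ih =>
    have h := volk_succ_sub (p := p) n N
    have e : volk p n (N + 1) = (volk p n (N + 1) - volk p n N
      - (n : ℚ_[p]) * (((p : ℚ_[p]) - 1) / 2) * (p : ℚ_[p]) ^ N * volk p (n - 1) N)
      + (volk p n N
      + (n : ℚ_[p]) * (((p : ℚ_[p]) - 1) / 2) * (p : ℚ_[p]) ^ N * volk p (n - 1) N) := by ring
    rw [e]
    refine norm_add_le_of_le ?_ (norm_add_le_of_le (ih n) ?_)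
    · refine h.trans ?_
      calc (p : ℝ) ^ (1 - (N : ℤ)) ≤ (p : ℝ) ^ (1 : ℤ) := by
            apply zpow_le_zpow_right₀ hp1.le; omega
        _ = p := zpow_one _
    · rw [norm_mul, norm_mul, norm_mul, Padic.norm_p_pow]
      have h1 : ‖(n : ℚ_[p])‖ * ‖((p : ℚ_[p]) - 1) / 2‖ ≤ 1 * p :=
        mul_le_mul (norm_natCast_le_one _) (norm_half_le p) (norm_nonneg _) zero_le_one
      have h2 : (p : ℝ) ^ (-(N : ℤ)) ≤ (p : ℝ)⁻¹ := by
        rw [← zpow_neg_one]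
        apply zpow_le_zpow_right₀ hp1.le; omega
      calc ‖(n : ℚ_[p])‖ * ‖((p : ℚ_[p]) - 1) / 2‖ * (p : ℝ) ^ (-(N : ℤ)) * ‖volk p (n - 1) N‖
          ≤ (1 * p) * (p : ℝ)⁻¹ * p := by
            apply mul_le_mul (mul_le_mul h1 h2 (by positivity) (by positivity)) (ih (n - 1))
              (norm_nonneg _) (by positivity)
        _ = p := by field_simp

end Pool.Agent.Work.MP_03df5c_h91
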